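import Pool.Agent.Helper28H.SP.Det

/-!
# The degrees of the ideals in a finite free extension of `k[t]`
-/

set_option autoImplicit false
set_option linter.all false

open Polynomial Module IsDedekindDomain
open scoped Classical

namespace Pool.Agent.Helper28H.SP

variable {k : Type} [Field k] [Finite k]

theorem hfq : Ring.HasFiniteQuotients k[X] := by
  refine ⟨fun {I} hI => ?_⟩
  obtain ⟨p, hp⟩ : ∃ p : k[X], I = Ideal.span {p} :=
    ⟨Submodule.IsPrincipal.generator I, (Ideal.span_singleton_generator I).symm⟩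
  subst hp
  have hp0 : p ≠ 0 := fun h => hI (Ideal.span_singleton_eq_bot.2 h)
  haveI : Module.Finite k (AdjoinRoot p) := PowerBasis.finite (AdjoinRoot.powerBasis hp0)
  exact Module.finite_of_finite k (M := AdjoinRoot p)

section ext

variable {O : Type} [CommRing O] [IsDedekindDomain O] [Algebra k[X] O] [Algebra k O]
  [IsScalarTower k k[X] O]

/-- The degree of an ideal. -/
noncomputable def D (k : Type) [Field k] {O : Type} [CommRing O] [Algebra k O] (I : Ideal O) : ℕ :=
  finrank k (O ⧸ I)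

section fin

variable [Module.Finite k[X] O]

include k in
theorem fin_quot {I : Ideal O} (hI : I ≠ ⊥) : Finite (O ⧸ I) := by
  haveI := hfq (k := k)
  haveI := Ring.HasFiniteQuotients.of_module_finite k[X] O
  exact Ring.HasFiniteQuotients.finiteQuotient hI

theorem card_eq {I : Ideal O} (hI : I ≠ ⊥) :
    Submodule.cardQuot I = Nat.card k ^ D k I := by
  haveI := fin_quot (k := k) hI
  rw [Submodule.cardQuot_apply]
  exact Module.natCard_eq_pow_finrank

theorem q_gt : 1 < Nat.card k := Finite.one_lt_card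

/-- Multiplicativity. -/
theorem cq_mul [Infinite O] (I J : Ideal O) :
    Submodule.cardQuot (I * J) = Submodule.cardQuot I * Submodule.cardQuot J :=
  UniqueFactorizationMonoid.multiplicative_of_coprime Submodule.cardQuot I J
    (Submodule.cardQuot_bot _ _)
    (fun {I J} hI => by simp [Ideal.isUnit_iff.mp hI, Ideal.mul_top])
    (fun {I} i hI =>
      have : Ideal.IsPrime I := Ideal.isPrime_of_prime hI
      cardQuot_pow_of_prime hI.ne_zero)
    fun {I J} hIJ => cardQuot_mul_of_coprime <| Ideal.isCoprime_iff_sup_eq.mpr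
      (Ideal.isUnit_iff.mp
        (hIJ (Ideal.dvd_iff_le.mpr le_sup_left) (Ideal.dvd_iff_le.mpr le_sup_right)))

theorem D_mul [Infinite O] {I J : Ideal O} (hI : I ≠ ⊥) (hJ : J ≠ ⊥) :
    D k (I * J) = D k I + D k J := by
  have hIJ : I * J ≠ ⊥ := by
    rw [← Ideal.zero_eq_bot] at hI hJ ⊢
    exact mul_ne_zero hI hJ
  have h := cq_mul I J
  rw [card_eq (k := k) hIJ, card_eq (k := k) hI, card_eq (k := k) hJ, ← pow_add] at h
  exact Nat.pow_right_injective q_gt h

theorem D_le_of_le {I J : Ideal O} (h : I ≤ J) (hI : I ≠ ⊥) : D k J ≤ D k I := by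
  haveI := fin_quot (k := k) hI
  have hJ : J ≠ ⊥ := fun hJ => hI (le_bot_iff.1 (hJ ▸ h))
  have h1 : Nat.card (O ⧸ J) ≤ Nat.card (O ⧸ I) :=
    Nat.card_le_card_of_surjective (Ideal.Quotient.factor h) (Ideal.Quotient.factor_surjective h)
  have h2 := card_eq (k := k) hI
  have h3 := card_eq (k := k) hJ
  rw [Submodule.cardQuot_apply] at h2 h3
  rw [h2, h3] at h1
  exact (Nat.pow_le_pow_iff_right q_gt).1 h1

theorem D_one [Infinite O] : D k (1 : Ideal O) = 0 := by
  have h := D_mul (k := k) (I := (1 : Ideal O)) (J := 1)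
    (by rw [← Ideal.zero_eq_bot]; exact one_ne_zero) (by rw [← Ideal.zero_eq_bot]; exact one_ne_zero)
  rw [one_mul] at h
  omega

theorem D_pow [Infinite O] {I : Ideal O} (hI : I ≠ ⊥) (j : ℕ) : D k (I ^ j) = j * D k I := by
  induction j with
  | zero => rw [pow_zero, D_one, zero_mul]
  | succ j ih =>
    rw [pow_succ, D_mul (by rw [← Ideal.zero_eq_bot] at hI ⊢; exact pow_ne_zero j hI) hI, ih]
    ring

theorem D_pos {I : Ideal O} (hI : I ≠ ⊥) (h1 : I ≠ ⊤) : 1 ≤ D k I := by
  by_contra hcon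
  have h0 : D k I = 0 := by omega
  have h2 := card_eq (k := k) hI
  rw [h0, pow_zero, Submodule.cardQuot_eq_one_iff] at h2
  exact h1 h2

theorem D_prod [Infinite O] (s : Multiset (Ideal O)) (h : ∀ I ∈ s, I ≠ ⊥) :
    s.prod ≠ ⊥ ∧ D k s.prod = (s.map (D k)).sum := by
  induction s using Multiset.induction_on with
  | empty =>
    rw [Multiset.prod_zero, Multiset.map_zero, Multiset.sum_zero]
    exact ⟨by rw [← Ideal.zero_eq_bot]; exact one_ne_zero, D_one⟩
  | cons I s ih =>
    obtain ⟨h1, h2⟩ := ih fun J hJ => h J (Multiset.mem_cons_of_mem hJ)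
    have h3 := h I (Multiset.mem_cons_self I s)
    rw [Multiset.prod_cons, Multiset.map_cons, Multiset.sum_cons, D_mul h3 h1, h2]
    refine ⟨?_, rfl⟩
    rw [← Ideal.zero_eq_bot] at h1 h3 ⊢
    exact mul_ne_zero h3 h1

/-- The degree of a principal ideal. -/
theorem D_span {ι : Type} [Fintype ι] (b : Basis ι k[X] O) {a : O} (ha : a ≠ 0) :
    D k (Ideal.span {a}) = (Algebra.norm k[X] a).natDegree :=
  finrank_quotient_span_eq_natDegree_norm (F := k) b ha

/-- The decomposition of the degree. -/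
theorem D_fac [Infinite O] {I : Ideal O} (hI : I ≠ ⊥) {L : ℕ} (hL : D k I ≤ L)
    (W : Finset (HeightOneSpectrum O)) (hW : ∀ w : HeightOneSpectrum O, I ≤ w.asIdeal → w ∈ W) :
    D k I ≤ ∑ w ∈ W, D k w.asIdeal * ((Finset.Icc 1 L).filter fun j => I ≤ w.asIdeal ^ j).card := by
  have hI0 : I ≠ 0 := by rwa [← Ideal.zero_eq_bot] at hI
  obtain ⟨s, hs⟩ : ∃ s, s = UniqueFactorizationMonoid.normalizedFactors I := ⟨_, rfl⟩
  have hprod : s.prod = I := by
    have := UniqueFactorizationMonoid.prod_normalizedFactors hI0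
    rw [← hs] at this
    exact associated_iff_eq.1 this
  have hpr : ∀ J ∈ s, Prime J := fun J hJ =>
    UniqueFactorizationMonoid.prime_of_normalized_factor J (hs ▸ hJ)
  have h1 : D k I = (s.map (D k)).sum := by
    rw [← (D_prod s fun J hJ => ?_).2, hprod]
    rw [← Ideal.zero_eq_bot]
    exact (hpr J hJ).ne_zero
  rw [h1, Finset.sum_multiset_map_count]
  have h2 : ∀ J ∈ s.toFinset, s.count J • D k J ≤
      D k J * ((Finset.Icc 1 L).filter fun j => I ≤ J ^ j).card := by
    intro J hJ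
    rw [Multiset.mem_toFinset] at hJ
    have hJ0 : J ≠ ⊥ := by
      rw [← Ideal.zero_eq_bot]
      exact (hpr J hJ).ne_zero
    have hJ1 : J ≠ ⊤ := fun h => (hpr J hJ).not_unit (Ideal.isUnit_iff.2 h)
    rw [smul_eq_mul, mul_comm]
    refine Nat.mul_le_mul_left _ ?_
    have hd : ∀ j ≤ s.count J, J ^ j ∣ I := by
      intro j hj
      rw [← hprod, ← Multiset.prod_replicate]
      exact Multiset.prod_dvd_prod_of_le (Multiset.le_count_iff_replicate_le.1 hj)
    have hcL : s.count J ≤ L := by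
      have h3 := D_le_of_le (k := k) (Ideal.dvd_iff_le.1 (hd _ le_rfl)) hI
      rw [D_pow hJ0] at h3
      have h4 := D_pos (k := k) hJ0 hJ1
      nlinarith
    calc s.count J = (Finset.Icc 1 (s.count J)).card := by rw [Nat.card_Icc, Nat.add_sub_cancel]
      _ ≤ _ := by
          refine Finset.card_le_card fun j hj => ?_
          rw [Finset.mem_Icc] at hj
          rw [Finset.mem_filter, Finset.mem_Icc]
          exact ⟨⟨hj.1, hj.2.trans hcL⟩, Ideal.dvd_iff_le.1 (hd j hj.2)⟩
  refine (Finset.sum_le_sum h2).trans ?_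
  have hinj : ∀ J : Ideal O, J ∈ s.toFinset → ∃ w ∈ W, w.asIdeal = J := by
    intro J hJ
    rw [Multiset.mem_toFinset] at hJ
    have hJp := hpr J hJ
    have hdv : J ∣ I := by
      rw [← hprod]
      exact Multiset.dvd_prod hJ
    exact ⟨⟨J, Ideal.isPrime_of_prime hJp, by rw [← Ideal.zero_eq_bot]; exact hJp.ne_zero⟩,
      hW _ (Ideal.dvd_iff_le.1 hdv), rfl⟩
  have hsub : s.toFinset ⊆ W.image fun w => w.asIdeal := by
    intro J hJ
    obtain ⟨w, hw, e⟩ := hinj J hJ
    exact Finset.mem_image.2 ⟨w, hw, e⟩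
  refine (Finset.sum_le_sum_of_subset hsub).trans (le_of_eq ?_)
  rw [Finset.sum_image]
  intro w _ w' _ h
  exact HeightOneSpectrum.ext h

end fin

end ext

end Pool.Agent.Helper28H.SP
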