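import Mathlib

/-!
# The degrees of the norms in a finite free extension of `k[t]`
-/

set_option autoImplicit false
set_option linter.all false

open Polynomial Module
open scoped Classical

namespace Pool.Agent.Helper28H.SP

variable {k : Type} [Field k]

theorem deg_det {ι : Type} [Fintype ι] (A : Matrix ι ι k[X]) {e : ℕ}
    (h : ∀ i j, (A i j).natDegree ≤ e) : A.det.natDegree ≤ Fintype.card ι * e := by
  rw [Matrix.det_apply]
  refine natDegree_sum_le_of_forall_le _ _ fun σ _ => ?_
  refine (natDegree_smul_le _ _).trans ?_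
  refine (natDegree_prod_le _ _).trans ?_
  refine (Finset.sum_le_card_nsmul _ _ e fun i _ => h _ _).trans (le_of_eq ?_)
  rw [Finset.card_univ, smul_eq_mul]

/-- The determinant of `t ^ n + M`, if the entries of `M` have smaller degree. -/
theorem det_big {ι : Type} [Fintype ι] (M : Matrix ι ι k[X]) {n : ℕ}
    (h : ∀ i j, (M i j).degree < n) :
    (Matrix.det ((X ^ n : k[X]) • (1 : Matrix ι ι k[X]) + M)).Monic ∧
    (Matrix.det ((X ^ n : k[X]) • (1 : Matrix ι ι k[X]) + M)).natDegree = Fintype.card ι * n := by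
  obtain ⟨A, hA⟩ : ∃ A : Matrix ι ι k[X], A = (X ^ n : k[X]) • (1 : Matrix ι ι k[X]) + M := ⟨_, rfl⟩
  rw [← hA]
  have hoff : ∀ i j, i ≠ j → (A i j).degree < n := by
    intro i j hij
    rw [hA, Matrix.add_apply, Matrix.smul_apply, Matrix.one_apply_ne hij, smul_zero, zero_add]
    exact h i j
  have hdiag : ∀ i, (A i i).Monic ∧ (A i i).natDegree = n := by
    intro i
    have e : A i i = X ^ n + M i i := by
      rw [hA, Matrix.add_apply, Matrix.smul_apply, Matrix.one_apply_eq, smul_eq_mul, mul_one]
    rw [e]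
    have h1 := h i i
    refine ⟨monic_X_pow_add h1, ?_⟩
    rw [natDegree_add_eq_left_of_degree_lt (by rwa [degree_X_pow]), natDegree_X_pow]
  have hall : ∀ i j, (A i j).degree ≤ n := by
    intro i j
    by_cases hij : i = j
    · subst hij
      rw [degree_eq_natDegree (hdiag i).1.ne_zero, (hdiag i).2]
    · exact (hoff i j hij).le
  have hP : (∏ i, A i i).Monic ∧ (∏ i, A i i).natDegree = Fintype.card ι * n := by
    refine ⟨monic_prod_of_monic _ _ fun i _ => (hdiag i).1, ?_⟩
    rw [natDegree_prod_of_monic _ _ fun i _ => (hdiag i).1,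
      Finset.sum_congr rfl fun i _ => (hdiag i).2, Finset.sum_const, Finset.card_univ, smul_eq_mul]
  have hR : (∑ σ ∈ Finset.univ.erase (1 : Equiv.Perm ι),
      Equiv.Perm.sign σ • ∏ i, A (σ i) i).degree < (Fintype.card ι * n : ℕ) := by
    refine (degree_sum_le _ _).trans_lt ?_
    rw [Finset.sup_lt_iff (WithBot.bot_lt_coe _)]
    intro σ hσ
    have hσ1 : σ ≠ 1 := (Finset.mem_erase.1 hσ).1
    obtain ⟨i, hi⟩ : ∃ i, σ i ≠ i := by
      by_contra hcon
      push Not at hcon
      exact hσ1 (Equiv.ext hcon)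
    refine (degree_smul_le _ _).trans_lt ?_
    rw [degree_prod, ← Finset.add_sum_erase _ _ (Finset.mem_univ i)]
    have h2 : ∑ x ∈ Finset.univ.erase i, (A (σ x) x).degree ≤
        (((Fintype.card ι - 1) * n : ℕ) : WithBot ℕ) := by
      refine (Finset.sum_le_card_nsmul _ _ (n : WithBot ℕ) fun x _ => hall _ _).trans (le_of_eq ?_)
      rw [Finset.card_erase_of_mem (Finset.mem_univ i), Finset.card_univ, nsmul_eq_mul]
      push_cast
      rfl
    have h3 := hoff (σ i) i hi
    have hc : 1 ≤ Fintype.card ι := Fintype.card_pos_iff.2 ⟨i⟩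
    calc (A (σ i) i).degree + ∑ x ∈ Finset.univ.erase i, (A (σ x) x).degree
        ≤ (A (σ i) i).degree + (((Fintype.card ι - 1) * n : ℕ) : WithBot ℕ) := by gcongr
      _ < (n : WithBot ℕ) + (((Fintype.card ι - 1) * n : ℕ) : WithBot ℕ) := by
          exact WithBot.add_lt_add_right (WithBot.coe_ne_bot) h3
      _ = (Fintype.card ι * n : ℕ) := by
          rw [← Nat.cast_add]
          congr 1
          obtain ⟨c, hc'⟩ : ∃ c, Fintype.card ι = c + 1 := ⟨Fintype.card ι - 1, by omega⟩
          rw [hc', Nat.add_sub_cancel]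
          ring
  have hdet : A.det = (∏ i, A i i) + ∑ σ ∈ Finset.univ.erase (1 : Equiv.Perm ι),
      Equiv.Perm.sign σ • ∏ i, A (σ i) i := by
    rw [Matrix.det_apply, ← Finset.add_sum_erase _ _ (Finset.mem_univ (1 : Equiv.Perm ι))]
    simp
  rw [hdet]
  have hlt : (∑ σ ∈ Finset.univ.erase (1 : Equiv.Perm ι),
      Equiv.Perm.sign σ • ∏ i, A (σ i) i).degree < (∏ i, A i i).degree := by
    rw [degree_eq_natDegree hP.1.ne_zero, hP.2]
    exact hR
  refine ⟨hP.1.add_of_left hlt, ?_⟩
  rw [natDegree_add_eq_left_of_degree_lt hlt, hP.2]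

section ext

variable {O ι : Type} [CommRing O] [Algebra k[X] O] [Fintype ι] (b : Basis ι k[X] O)

/-- The element with the coordinates `v`. -/
noncomputable def val (v : ι → k[X]) : O := ∑ i, v i • b i

theorem val_sub (v v' : ι → k[X]) : val b (v - v') = val b v - val b v' := by
  unfold val
  rw [← Finset.sum_sub_distrib]
  refine Finset.sum_congr rfl fun i _ => ?_
  rw [Pi.sub_apply, sub_smul]

theorem val_inj : Function.Injective (val b) := by
  intro v v' h
  have h1 : ∀ v : ι → k[X], b.equivFun (val b v) = v := by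
    intro v
    unfold val
    rw [← b.equivFun_symm_apply, LinearEquiv.apply_symm_apply]
  rw [← h1 v, h, h1]

theorem val_repr (x : O) : val b (b.equivFun x) = x := by
  unfold val
  exact b.sum_equivFun x

/-- The entries of the matrix of `∑ v i • b i`. -/
theorem mat_val : ∃ C : ℕ, ∀ (n : ℕ) (v : ι → k[X]), (∀ i, (v i).natDegree ≤ n) →
    ∀ i j, (Algebra.leftMulMatrix b (val b v) i j).natDegree ≤ n + C := by
  obtain ⟨C, hC⟩ : ∃ C : ℕ, ∀ l i j, (Algebra.leftMulMatrix b (b l) i j).natDegree ≤ C :=
    ⟨∑ l, ∑ i, ∑ j, (Algebra.leftMulMatrix b (b l) i j).natDegree, fun l i j =>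
      (Finset.single_le_sum (f := fun j => (Algebra.leftMulMatrix b (b l) i j).natDegree)
        (fun _ _ => Nat.zero_le _) (Finset.mem_univ j)).trans
      ((Finset.single_le_sum (f := fun i => ∑ j, (Algebra.leftMulMatrix b (b l) i j).natDegree)
        (fun _ _ => Nat.zero_le _) (Finset.mem_univ i)).trans
      (Finset.single_le_sum (f := fun l => ∑ i, ∑ j, (Algebra.leftMulMatrix b (b l) i j).natDegree)
        (fun _ _ => Nat.zero_le _) (Finset.mem_univ l)))⟩
  refine ⟨C, fun n v hv i j => ?_⟩
  have e : Algebra.leftMulMatrix b (val b v) i j = ∑ l, v l * Algebra.leftMulMatrix b (b l) i j := by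
    unfold val
    rw [map_sum, Matrix.sum_apply]
    refine Finset.sum_congr rfl fun l _ => ?_
    rw [map_smul, Matrix.smul_apply, smul_eq_mul]
  rw [e]
  refine natDegree_sum_le_of_forall_le _ _ fun l _ => ?_
  exact natDegree_mul_le.trans (add_le_add (hv l) (hC l i j))

/-- The norm form. -/
theorem norm_val : ∃ C : ℕ,
    (∀ (n : ℕ) (v : ι → k[X]), (∀ i, (v i).natDegree ≤ n) →
      (Algebra.norm k[X] (val b v)).natDegree ≤ Fintype.card ι * (n + C)) ∧
    ∀ (n : ℕ) (v : ι → k[X]), (∀ i, (v i).degree < n) →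
      Algebra.norm k[X] (algebraMap k[X] O (X ^ (n + C)) + val b v) ≠ 0 ∧
      (Algebra.norm k[X] (algebraMap k[X] O (X ^ (n + C)) + val b v)).natDegree =
        Fintype.card ι * (n + C) := by
  obtain ⟨C, hC⟩ := mat_val b
  refine ⟨C, fun n v hv => ?_, fun n v hv => ?_⟩
  · rw [Algebra.norm_eq_matrix_det b]
    exact deg_det _ (hC n v hv)
  · rw [Algebra.norm_eq_matrix_det b]
    have e : Algebra.leftMulMatrix b (algebraMap k[X] O (X ^ (n + C)) + val b v) =
        (X ^ (n + C) : k[X]) • (1 : Matrix ι ι k[X]) + Algebra.leftMulMatrix b (val b v) := by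
      rw [map_add, AlgHom.commutes, Algebra.algebraMap_eq_smul_one]
    rw [e]
    have h1 := det_big (n := n + C) (Algebra.leftMulMatrix b (val b v)) fun i j => by
      rcases Nat.eq_zero_or_pos n with h0 | h0
      · have hv0 : v = 0 := by
          funext l
          have h3 := hv l
          rw [h0, Nat.cast_zero] at h3
          exact degree_eq_bot.1 (Nat.WithBot.lt_zero_iff.1 h3)
        have e0 : val b v = 0 := by
          unfold val
          simp [hv0]
        rw [e0, map_zero, Matrix.zero_apply, degree_zero]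
        exact WithBot.bot_lt_coe _
      · have h2 := hC (n - 1) v (fun l => by
          have h3 := hv l
          by_cases h4 : v l = 0
          · rw [h4, natDegree_zero]
            omega
          · have := (natDegree_lt_iff_degree_lt h4).2 h3
            omega) i j
        refine (degree_le_of_natDegree_le h2).trans_lt ?_
        exact_mod_cast (by omega : n - 1 + C < n + C)
    exact ⟨h1.1.ne_zero, h1.2⟩

end ext

end Pool.Agent.Helper28H.SP
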