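import Pool.Agent.Helper28H.SP.Pr

/-!
# In a Galois extension of `k(t)` all primes over a given prime have the same degree
-/

set_option autoImplicit false
set_option linter.all false

open Polynomial Module IsDedekindDomain
open scoped Classical Pointwise

namespace Pool.Agent.Helper28H.SP

open Pool.Agent.N874.PP (Ov)

theorem comap_eq {k : Type} [Field k] {O : Type} [CommRing O] [IsDedekindDomain O] [Algebra k[X] O]
    {Q : k[X]} (hQ : Irreducible Q) (w : HeightOneSpectrum O) (h : Ov Q w) :
    w.asIdeal.comap (algebraMap k[X] O) = Ideal.span {Q} := by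
  haveI hmax : (Ideal.span {Q} : Ideal k[X]).IsMaximal :=
    PrincipalIdealRing.isMaximal_of_irreducible hQ
  haveI := w.isPrime
  refine (hmax.eq_of_le (Ideal.IsPrime.ne_top (Ideal.comap_isPrime _ _)) ?_).symm
  rw [Ideal.span_le, Set.singleton_subset_iff]
  exact h

theorem one_all {k : Type} [Field k] (K E O : Type) [Field K] [Field E] [Algebra k[X] K]
    [IsFractionRing k[X] K] [Algebra K E] [Algebra k[X] E] [IsScalarTower k[X] K E]
    [FiniteDimensional K E] [IsGalois K E] [CommRing O] [IsDedekindDomain O] [Algebra O E]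
    [IsFractionRing O E] [Algebra k[X] O] [IsScalarTower k[X] O E] [IsIntegralClosure O k[X] E]
    {Q : k[X]} (hQ : Irreducible Q) (h : HasOne O Q) (w : HeightOneSpectrum O) (hw : Ov Q w) :
    ∀ y : O, ∃ c : k[X], y - algebraMap k[X] O c ∈ w.asIdeal := by
  obtain ⟨w₀, h0, h1⟩ := h
  haveI : Algebra.IsIntegral k[X] O := IsIntegralClosure.isIntegral_algebra k[X] E
  let G := E ≃ₐ[K] E
  letI : MulSemiringAction G O := IsIntegralClosure.MulSemiringAction k[X] K E O
  haveI : IsGaloisGroup G k[X] O := IsGaloisGroup.of_isFractionRing G k[X] O K E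
  haveI := w.isPrime
  haveI := w₀.isPrime
  obtain ⟨σ, hσ⟩ := Algebra.IsInvariant.exists_smul_of_under_eq k[X] O G w₀.asIdeal w.asIdeal
    ((comap_eq hQ w₀ h0).trans (comap_eq hQ w hw).symm)
  intro y
  obtain ⟨c, hc⟩ := h1 (σ⁻¹ • y)
  refine ⟨c, ?_⟩
  rw [hσ, Ideal.mem_pointwise_smul_iff_inv_smul_mem, smul_sub, smul_algebraMap]
  exact hc

end Pool.Agent.Helper28H.SP
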