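import Pool.Agent.Helper28H.SP.Deg

/-!
# Counting the elements of bounded size in the ideals of a finite free extension of `k[t]`
-/

set_option autoImplicit false
set_option linter.all false

open Polynomial Module IsDedekindDomain
open scoped Classical

namespace Pool.Agent.Helper28H.SP

variable {k : Type} [Field k] [Finite k]

theorem lt_fin (n : ℕ) : {p : k[X] | p.degree < n}.Finite := by
  haveI : Finite (degreeLT k n) := Finite.of_equiv _ (degreeLTEquiv k n).symm.toEquiv
  have : ((degreeLT k n : Submodule k k[X]) : Set k[X]).Finite := Set.toFinite _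
  refine this.subset fun p hp => ?_
  exact mem_degreeLT.2 hp

/-- The polynomials of degree smaller than `n`. -/
noncomputable def lt (k : Type) [Field k] [Finite k] (n : ℕ) : Finset k[X] :=
  (lt_fin (k := k) n).toFinset

theorem mem_lt {n : ℕ} {p : k[X]} : p ∈ lt k n ↔ p.degree < n := by
  unfold lt
  rw [Set.Finite.mem_toFinset]
  exact Iff.rfl

theorem card_lt (n : ℕ) : (lt k n).card = Nat.card k ^ n := by
  have h1 : Nat.card (degreeLT k n) = Nat.card k ^ n := by
    rw [Nat.card_congr (degreeLTEquiv k n).toEquiv, Nat.card_fun, Nat.card_fin]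
  have h2 : {p : k[X] | p.degree < n} = ((degreeLT k n : Submodule k k[X]) : Set k[X]) := by
    ext p
    exact mem_degreeLT.symm
  unfold lt
  rw [← Set.ncard_eq_toFinset_card _ (lt_fin (k := k) n), h2]
  exact h1

/-- The vectors of polynomials of degree smaller than `n`. -/
noncomputable def bx (k : Type) [Field k] [Finite k] (ι : Type) [Fintype ι] (n : ℕ) :
    Finset (ι → k[X]) := Fintype.piFinset fun _ => lt k n

theorem mem_bx {ι : Type} [Fintype ι] {n : ℕ} {v : ι → k[X]} :
    v ∈ bx k ι n ↔ ∀ i, (v i).degree < n := by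
  unfold bx
  rw [Fintype.mem_piFinset]
  simp only [mem_lt]

theorem card_bx {ι : Type} [Fintype ι] (n : ℕ) :
    (bx k ι n).card = Nat.card k ^ (Fintype.card ι * n) := by
  unfold bx
  rw [Fintype.card_piFinset]
  simp only [card_lt, Finset.prod_const, Finset.card_univ]
  rw [← pow_mul, mul_comm]

theorem deg_lt_le {n : ℕ} {p : k[X]} (h : p.degree < n) : p.natDegree ≤ n := by
  by_cases h0 : p = 0
  · rw [h0, natDegree_zero]
    exact Nat.zero_le _
  · exact ((natDegree_lt_iff_degree_lt h0).2 h).le

section ext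

variable {O : Type} [CommRing O] [IsDedekindDomain O] [Algebra k[X] O] [Algebra k O]
  [IsScalarTower k k[X] O] [Module.Finite k[X] O] {ι : Type} [Fintype ι] (b : Basis ι k[X] O)

/-- The number of the small elements in an ideal. -/
theorem lat {C : ℕ} (hC : ∀ (n : ℕ) (v : ι → k[X]), (∀ i, (v i).natDegree ≤ n) →
      (Algebra.norm k[X] (val b v)).natDegree ≤ Fintype.card ι * (n + C))
    {I : Ideal O} (hI : I ≠ ⊥) {n j : ℕ} (hj : j ≤ n)
    (hD : Fintype.card ι * (n - j + C) < D k I) :
    ((bx k ι n).filter fun v => val b v ∈ I).card ≤ Nat.card k ^ (Fintype.card ι * j) := by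
  rw [← card_bx (k := k) (ι := ι) j]
  let e := I.selfBasis b hI
  let φ : (ι → k[X]) → (ι → k[X]) := fun v =>
    if h : val b v ∈ I then fun i => (e.equivFun ⟨val b v, h⟩ i) %ₘ X ^ j else 0
  refine Finset.card_le_card_of_injOn φ (fun v hv => ?_) ?_
  · rw [Finset.mem_coe, Finset.mem_filter] at hv
    rw [Finset.mem_coe, mem_bx]
    intro i
    have e1 : φ v = fun i => (e.equivFun ⟨val b v, hv.2⟩ i) %ₘ X ^ j := dif_pos hv.2
    rw [e1]
    refine (degree_modByMonic_lt _ (monic_X_pow j)).trans_le ?_
    rw [degree_X_pow]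
  · intro v hv v' hv' hφ
    rw [Finset.mem_coe, Finset.mem_filter, mem_bx] at hv hv'
    have e1 : φ v = fun i => (e.equivFun ⟨val b v, hv.2⟩ i) %ₘ X ^ j := dif_pos hv.2
    have e2 : φ v' = fun i => (e.equivFun ⟨val b v', hv'.2⟩ i) %ₘ X ^ j := dif_pos hv'.2
    rw [e1, e2] at hφ
    have h1 : ∀ i, ∃ c : k[X], e.equivFun ⟨val b v, hv.2⟩ i - e.equivFun ⟨val b v', hv'.2⟩ i =
        X ^ j * c := by
      intro i
      have h2 : (X ^ j : k[X]) ∣ e.equivFun ⟨val b v, hv.2⟩ i - e.equivFun ⟨val b v', hv'.2⟩ i := by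
        rw [← modByMonic_eq_zero_iff_dvd (monic_X_pow j), sub_modByMonic, sub_eq_zero]
        exact congrFun hφ i
      exact h2
    choose c hc using h1
    let y : I := ∑ i, c i • e i
    have hy : (⟨val b v, hv.2⟩ : I) - ⟨val b v', hv'.2⟩ = (X ^ j : k[X]) • y := by
      apply e.equivFun.injective
      rw [map_sub, map_smul]
      have h3 : e.equivFun y = c := by
        have hy0 : y = e.equivFun.symm c := (e.equivFun_symm_apply c).symm
        rw [hy0, LinearEquiv.apply_symm_apply]
      rw [h3]
      funext i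
      rw [Pi.sub_apply, Pi.smul_apply, smul_eq_mul]
      exact hc i
    have hy' : val b v - val b v' = (X ^ j : k[X]) • (y : O) := by
      have := congrArg (fun x : I => (x : O)) hy
      simpa using this
    obtain ⟨u, hu⟩ : ∃ u, u = b.equivFun (y : O) := ⟨_, rfl⟩
    have hyu : val b u = y := by
      rw [hu]
      exact val_repr b _
    have h4 : v - v' = fun i => X ^ j * u i := by
      apply val_inj b
      rw [val_sub, hy', ← hyu]
      unfold val
      rw [Finset.smul_sum]
      refine Finset.sum_congr rfl fun i _ => ?_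
      rw [smul_smul]
    have hdeg : ∀ i, (u i).natDegree ≤ n - j := by
      intro i
      by_cases h0 : u i = 0
      · rw [h0, natDegree_zero]
        exact Nat.zero_le _
      · have h5 : (v i - v' i).degree < n :=
          (degree_sub_le _ _).trans_lt (max_lt (hv.1 i) (hv'.1 i))
        have h6 : v i - v' i = X ^ j * u i := congrFun h4 i
        rw [h6, degree_mul, degree_X_pow, degree_eq_natDegree h0, ← Nat.cast_add] at h5
        have h7 : j + (u i).natDegree < n := by exact_mod_cast h5
        omega
    have hy0 : (y : O) = 0 := by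
      by_contra hne
      have h8 : Ideal.span {(y : O)} ≤ I := by
        rw [Ideal.span_le, Set.singleton_subset_iff]
        exact y.2
      have h9 := D_le_of_le (k := k) h8 fun h => hne (Ideal.span_singleton_eq_bot.1 h)
      rw [D_span b hne, ← hyu] at h9
      have h10 := hC (n - j) u hdeg
      omega
    rw [hy0, smul_zero, sub_eq_zero] at hy'
    exact val_inj b hy'

/-- The elements of the family of norm of degree exactly `L`. -/
theorem fam_count : ∃ C : ℕ, ∀ n : ℕ,
    (∀ v ∈ bx k ι n, algebraMap k[X] O (X ^ (n + C)) + val b v ≠ 0 ∧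
      D k (Ideal.span {algebraMap k[X] O (X ^ (n + C)) + val b v}) = Fintype.card ι * (n + C)) ∧
    ∀ I : Ideal O, I ≠ ⊥ →
      ((bx k ι n).filter fun v => algebraMap k[X] O (X ^ (n + C)) + val b v ∈ I).card *
        Nat.card k ^ D k I ≤ Nat.card k ^ (Fintype.card ι * (n + C) + Fintype.card ι) := by
  obtain ⟨C, hC1, hC2⟩ := norm_val b
  have hι : 0 < Fintype.card ι := by
    rw [Fintype.card_pos_iff]
    by_contra hcon
    rw [not_nonempty_iff] at hcon
    have h1 : (1 : O) = 0 := by
      rw [← val_repr b (1 : O), ← val_repr b (0 : O)]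
      congr 1
      funext i
      exact hcon.elim i
    exact one_ne_zero h1
  have hq := q_gt (k := k)
  refine ⟨C, fun n => ?_⟩
  have hA : ∀ v ∈ bx k ι n, algebraMap k[X] O (X ^ (n + C)) + val b v ≠ 0 ∧
      D k (Ideal.span {algebraMap k[X] O (X ^ (n + C)) + val b v}) = Fintype.card ι * (n + C) := by
    intro v hv
    obtain ⟨h1, h2⟩ := hC2 n v (mem_bx.1 hv)
    have h3 : algebraMap k[X] O (X ^ (n + C)) + val b v ≠ 0 := by
      intro h0
      haveI : Nonempty ι := Fintype.card_pos_iff.1 hι
      rw [h0, Algebra.norm_eq_matrix_det b, map_zero, Matrix.det_zero] at h1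
      exact h1 rfl
    exact ⟨h3, by rw [D_span b h3, h2]⟩
  refine ⟨hA, fun I hI => ?_⟩
  obtain ⟨L, hL⟩ : ∃ L, L = Fintype.card ι * (n + C) := ⟨_, rfl⟩
  obtain ⟨F, hF⟩ : ∃ F, F = (bx k ι n).filter fun v =>
    algebraMap k[X] O (X ^ (n + C)) + val b v ∈ I := ⟨_, rfl⟩
  rw [← hF, ← hL]
  rcases Finset.eq_empty_or_nonempty F with h0 | ⟨v₀, hv₀⟩
  · rw [h0, Finset.card_empty, zero_mul]
    exact Nat.zero_le _
  rw [hF, Finset.mem_filter] at hv₀
  have hDL : D k I ≤ L := by
    obtain ⟨h1, h2⟩ := hA v₀ hv₀.1
    rw [hL, ← h2]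
    refine D_le_of_le ?_ fun h => h1 (Ideal.span_singleton_eq_bot.1 h)
    rw [Ideal.span_le, Set.singleton_subset_iff]
    exact hv₀.2
  have hle : F.card ≤ ((bx k ι n).filter fun v => val b v ∈ I).card := by
    refine Finset.card_le_card_of_injOn (fun v => v - v₀) (fun v hv => ?_) ?_
    · rw [Finset.mem_coe, hF, Finset.mem_filter] at hv
      rw [Finset.mem_coe, Finset.mem_filter, mem_bx]
      refine ⟨fun i => ?_, ?_⟩
      · exact (degree_sub_le _ _).trans_lt
          (max_lt (mem_bx.1 hv.1 i) (mem_bx.1 hv₀.1 i))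
      · have e : val b (v - v₀) = (algebraMap k[X] O (X ^ (n + C)) + val b v) -
            (algebraMap k[X] O (X ^ (n + C)) + val b v₀) := by
          rw [val_sub]
          ring
        show val b (v - v₀) ∈ I
        rw [e]
        exact I.sub_mem hv.2 hv₀.2
    · intro v _ v' _ h
      exact sub_left_injective h
  by_cases hcase : D k I ≤ Fintype.card ι * C
  · have h1 : F.card ≤ Nat.card k ^ (Fintype.card ι * n) := by
      refine hle.trans ((Finset.card_filter_le _ _).trans ?_)
      rw [card_bx]
    calc F.card * Nat.card k ^ D k I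
        ≤ Nat.card k ^ (Fintype.card ι * n) * Nat.card k ^ (Fintype.card ι * C) :=
          Nat.mul_le_mul h1 (Nat.pow_le_pow_right hq.le hcase)
      _ = Nat.card k ^ L := by rw [← pow_add, hL, mul_add]
      _ ≤ _ := Nat.pow_le_pow_right hq.le (Nat.le_add_right _ _)
  · push Not at hcase
    obtain ⟨t, ht⟩ : ∃ t, t = (D k I - 1) / Fintype.card ι := ⟨_, rfl⟩
    have h1 : Fintype.card ι * t ≤ D k I - 1 := by
      rw [ht]
      exact Nat.mul_div_le _ _
    have h2 : D k I - 1 < Fintype.card ι * t + Fintype.card ι := by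
      rw [ht]
      have := Nat.lt_mul_div_succ (D k I - 1) hι
      rw [mul_add, mul_one] at this
      exact this
    have h3 : C ≤ t := by
      rw [ht, Nat.le_div_iff_mul_le hι]
      rw [mul_comm]
      omega
    have h4 : t < n + C := by
      by_contra hcon
      push Not at hcon
      have : Fintype.card ι * (n + C) ≤ Fintype.card ι * t := Nat.mul_le_mul_left _ hcon
      omega
    obtain ⟨j, hj⟩ : ∃ j, j = n + C - t := ⟨_, rfl⟩
    have h5 := lat (k := k) b hC1 hI (n := n) (j := j) (by omega) (by
      have e : n - j + C = t := by omega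
      rw [e]
      omega)
    have h6 : Fintype.card ι * j + D k I ≤ L + Fintype.card ι := by
      have h7 : Fintype.card ι * j + Fintype.card ι * t = L := by
        rw [← mul_add, hL]
        congr 1
        omega
      omega
    calc F.card * Nat.card k ^ D k I
        ≤ Nat.card k ^ (Fintype.card ι * j) * Nat.card k ^ D k I :=
          Nat.mul_le_mul_right _ (hle.trans h5)
      _ = Nat.card k ^ (Fintype.card ι * j + D k I) := by rw [pow_add]
      _ ≤ _ := Nat.pow_le_pow_right hq.le h6

end ext

end Pool.Agent.Helper28H.SP
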