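import Pool.Agent.Helper28H.SP.Rate
import Pool.Agent.Helper28H.FF.Main

/-!
# Almost all curves of the family have a small twist, with primes from a given set
-/

set_option autoImplicit false
set_option linter.all false

open Polynomial Filter IsDedekindDomain
open scoped Classical

namespace Pool.Agent.Helper28H.SP

open Pool.Agent.N352.PJ Pool.Agent.N615.JM Pool.Agent.Helper28H.FF
open Pool.Agent.N874.PP (nm)

variable {k : Type} [Field k] [Finite k]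

/-- There is a set of primes with the property `P`, with a product of degree at most `D`, for which `f`
is not bad. -/
def GoodP (g N D : ℕ) (P : k[X] → Prop) (f : k[X][X]) : Prop :=
  ∃ S : Finset k[X], (∀ Q ∈ S, Q.Monic ∧ Irreducible Q ∧ P Q ∧ Ty Q f) ∧
    ∑ Q ∈ S, Q.natDegree ≤ D ∧ ¬ LBad g N S (fun _ => f.divX) f

/-- **For almost all polynomials there is such a set.** -/
theorem mcP (hBAD : S_BAD) {g : ℕ} (hg : 1 ≤ g) (hk : ((2 * g + 1).factorial : k) ≠ 0)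
    (P : k[X] → Prop) {c B : ℝ} (hc : 0 < c)
    (hR : ∀ n : ℕ, c * Real.log (n + 1) - B ≤ RR g (Up P n)) :
    ∃ C e : ℝ, 0 < C ∧ 0 < e ∧ ∀ D : ℕ, 1 ≤ D → ∀ᶠ N : ℕ in atTop, ∀ r : k[X],
    (((BF g N r 1 (fun _ => 0)).filter fun a => ¬ GoodP g N D P (pol a)).card : ℝ) ≤
      C * (D : ℝ) ^ (-e) * (Nat.card k : ℝ) ^ (2 * N * dd g) := by
  have h2 : (2 : k) ≠ 0 := by
    have := Pool.Agent.N738.PJ.fac_ne hk (m := 2) (by norm_num) (by omega)
    exact_mod_cast this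
  have hg' : (1 : ℝ) ≤ g := by exact_mod_cast hg
  have hK0 : 0 ≤ K0 k g := by
    unfold K0
    positivity
  obtain ⟨e, he⟩ : ∃ e : ℝ, e = min (c / 250) (1 / 2) := ⟨_, rfl⟩
  have he0 : 0 < e := by
    rw [he]
    exact lt_min (by positivity) (by norm_num)
  have he1 : e ≤ c / 250 := by
    rw [he]
    exact min_le_left _ _
  have he2 : e ≤ 1 / 2 := by
    rw [he]
    exact min_le_right _ _
  refine ⟨(1 + K0 k g) * Real.exp (B / 125) + 1, e, by positivity, he0, fun D hD => ?_⟩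
  have hD1 : (1 : ℝ) ≤ D := by exact_mod_cast hD
  have hD0 : (0 : ℝ) < D := by linarith
  obtain ⟨n, hn⟩ : ∃ n : ℕ, n = Nat.sqrt D := ⟨_, rfl⟩
  have hn1 : n * n ≤ D := hn ▸ Nat.sqrt_le D
  have hn2 : D < (n + 1) * (n + 1) := hn ▸ Nat.lt_succ_sqrt D
  obtain ⟨𝒬, h𝒬⟩ : ∃ 𝒬 : Finset k[X], 𝒬 = Up P n := ⟨_, rfl⟩
  have hQ : ∀ Q ∈ 𝒬, Q.Monic ∧ Irreducible Q := by
    intro Q h
    rw [h𝒬] at h
    exact ⟨(mem_Up.1 h).1, (mem_Up.1 h).2.1⟩
  -- the exponential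
  have hexp : Real.exp (-(1 / 125) * RR g 𝒬) ≤ Real.exp (B / 125) * (D : ℝ) ^ (-e) := by
    have h4 := hR n
    rw [← h𝒬] at h4
    have h5 : Real.log D ≤ 2 * Real.log (n + 1) := by
      have h6 : (D : ℝ) ≤ ((n : ℝ) + 1) ^ 2 := by
        rw [pow_two]
        exact_mod_cast hn2.le
      have h7 := Real.log_le_log hD0 h6
      rw [Real.log_pow] at h7
      exact_mod_cast h7
    rw [Real.rpow_def_of_pos hD0, ← Real.exp_add, Real.exp_le_exp]
    have h8 : 0 ≤ Real.log D := Real.log_nonneg hD1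
    have h9 : Real.log D * e ≤ Real.log D * (c / 250) := mul_le_mul_of_nonneg_left he1 h8
    have h10 : c * Real.log D ≤ c * (2 * Real.log (n + 1)) := mul_le_mul_of_nonneg_left h5 hc.le
    nlinarith
  have hev : ∀ᶠ N : ℕ in atTop, ∑ Q ∈ 𝒬, Q.natDegree ≤ 4 * N := by
    filter_upwards [eventually_ge_atTop (∑ Q ∈ 𝒬, Q.natDegree)] with N hN
    omega
  filter_upwards [est2 hBAD hg h2 hQ, hev] with N hN1 hN2
  intro r
  have hqN : (0 : ℝ) ≤ (Nat.card k : ℝ) ^ (2 * N * dd g) := by positivity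
  have e1 := est1 hg r hQ hN2
  have e2 := hN1.2
  have e3 := few3 hg (r := r) hQ D (N := N) (fun Q h =>
    (Finset.single_le_sum (f := fun Q : k[X] => Q.natDegree) (fun _ _ => Nat.zero_le _) h).trans hN2)
  obtain ⟨s, hs⟩ : ∃ s : ℕ, s = ⌊4 / 5 * RR g 𝒬⌋₊ := ⟨_, rfl⟩
  rw [← hs] at e1 e2 hN1
  obtain ⟨B1, hB1⟩ : ∃ B1 : Finset (Fin (2 * g) → k[X]), B1 = (BF g N r 1 (fun _ => 0)).filter
    fun a => (SE 𝒬 (pol a)).card < s := ⟨_, rfl⟩
  obtain ⟨B3, hB3⟩ : ∃ B3 : Finset (Fin (2 * g) → k[X]), B3 = (BF g N r 1 (fun _ => 0)).filter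
    fun a => D < ∑ Q ∈ SE 𝒬 (pol a), Q.natDegree := ⟨_, rfl⟩
  obtain ⟨B2, hB2⟩ : ∃ B2 : Finset (Fin (2 * g) → k[X]), B2 = (BF g N r 1 (fun _ => 0)).filter
    fun a => pol a ∈ BB g N 𝒬 s := ⟨_, rfl⟩
  rw [← hB1] at e1
  rw [← hB3] at e3
  have hB2card : (B2.card : ℝ) ≤ ((BB g N 𝒬 s).ncard : ℝ) := by
    rw [Set.ncard_eq_toFinset_card _ hN1.1]
    have : B2.card ≤ hN1.1.toFinset.card := by
      refine Finset.card_le_card_of_injOn pol ?_ ?_
      · intro a ha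
        rw [hB2] at ha
        exact Finset.mem_coe.2 (hN1.1.mem_toFinset.2 (Finset.mem_filter.1 ha).2)
      · intro a _ b _ hab
        exact pol_inj hab
    exact_mod_cast this
  have hsub : ((BF g N r 1 (fun _ => 0)).filter fun a => ¬ GoodP g N D P (pol a)) ⊆
      (B1 ∪ B2) ∪ B3 := by
    intro a ha
    obtain ⟨ha1, ha2⟩ := Finset.mem_filter.1 ha
    by_contra hn
    rw [Finset.mem_union, Finset.mem_union, not_or, not_or] at hn
    obtain ⟨⟨n1, n2⟩, n3⟩ := hn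
    apply ha2
    refine ⟨SE 𝒬 (pol a), fun Q hQS => ?_, ?_, fun hb => ?_⟩
    · obtain ⟨h4, h5⟩ := Finset.mem_filter.1 hQS
      rw [h𝒬] at h4
      obtain ⟨h6, h7, -, h8⟩ := mem_Up.1 h4
      exact ⟨h6, h7, h8, h5⟩
    · by_contra h
      exact n3 (by rw [hB3]; exact Finset.mem_filter.2 ⟨ha1, not_le.1 h⟩)
    · apply n2
      rw [hB2]
      refine Finset.mem_filter.2 ⟨ha1, mo_pol a, ?_, hb⟩
      by_contra h
      exact n1 (by rw [hB1]; exact Finset.mem_filter.2 ⟨ha1, not_le.1 h⟩)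
  have hcard : (((BF g N r 1 (fun _ => 0)).filter fun a => ¬ GoodP g N D P (pol a)).card : ℝ) ≤
      B1.card + B2.card + B3.card := by
    have h4 := Finset.card_le_card hsub
    have h5 := Finset.card_union_le (B1 ∪ B2) B3
    have h6 := Finset.card_union_le B1 B2
    have : ((BF g N r 1 (fun _ => 0)).filter fun a => ¬ GoodP g N D P (pol a)).card ≤
      B1.card + B2.card + B3.card := by omega
    exact_mod_cast this
  -- the third set
  have e4 : (B3.card : ℝ) ≤ (Nat.card k : ℝ) ^ (2 * N * dd g) * (D : ℝ) ^ (-e) := by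
    have h5 : (D : ℝ) * B3.card ≤ (Nat.card k : ℝ) ^ (2 * N * dd g) * n := by
      refine e3.trans (mul_le_mul_of_nonneg_left ?_ hqN)
      rw [h𝒬]
      exact deg_le' P n
    have h6 : (n : ℝ) ≤ D * (D : ℝ) ^ (-e) := by
      have h7 : (n : ℝ) ≤ (D : ℝ) ^ (1 / 2 : ℝ) := by
        rw [← Real.sqrt_eq_rpow]
        refine Real.le_sqrt_of_sq_le ?_
        rw [pow_two]
        exact_mod_cast hn1
      have h8 : D * (D : ℝ) ^ (-e) = (D : ℝ) ^ (1 + -e) := by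
        rw [Real.rpow_add hD0, Real.rpow_one]
      rw [h8]
      refine h7.trans (Real.rpow_le_rpow_of_exponent_le hD1 ?_)
      linarith
    have h7 : (D : ℝ) * B3.card ≤ D * ((Nat.card k : ℝ) ^ (2 * N * dd g) * (D : ℝ) ^ (-e)) := by
      refine h5.trans ((mul_le_mul_of_nonneg_left h6 hqN).trans (le_of_eq ?_))
      ring
    exact le_of_mul_le_mul_left h7 hD0
  calc (((BF g N r 1 (fun _ => 0)).filter fun a => ¬ GoodP g N D P (pol a)).card : ℝ)
      ≤ B1.card + B2.card + B3.card := hcard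
    _ ≤ (Nat.card k : ℝ) ^ (2 * N * dd g) * (Real.exp (B / 125) * (D : ℝ) ^ (-e)) +
        K0 k g * (Nat.card k : ℝ) ^ (2 * N * dd g) * (Real.exp (B / 125) * (D : ℝ) ^ (-e)) +
        (Nat.card k : ℝ) ^ (2 * N * dd g) * (D : ℝ) ^ (-e) := by
        refine add_le_add (add_le_add (e1.trans ?_) (hB2card.trans (e2.trans ?_))) e4
        · exact mul_le_mul_of_nonneg_left hexp hqN
        · exact mul_le_mul_of_nonneg_left hexp (by positivity)
    _ = _ := by ring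

/-- There is a small twist with primes with the property `P`. -/
def SmallP {k : Type} [Field k] (K : Type) [Field K] [Algebra k[X] K] [IsFractionRing k[X] K]
    (P : k[X] → Prop) (D : ℕ) (f : k[X][X]) : Prop :=
  ∃ J : Finset k[X], (∀ Q ∈ J, Q.Monic ∧ Irreducible Q ∧ P Q ∧ Ty Q f) ∧
    ∑ Q ∈ J, Q.natDegree ≤ D ∧ UniT K J f

theorem smallP_of (K : Type) [Field K] [Algebra k[X] K]
    [IsFractionRing k[X] K] {T : Finset k[X]} {P : k[X] → Prop} {g N D : ℕ} {f : k[X][X]}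
    (hg : 1 ≤ g) (hk : ((2 * g + 1).factorial : k) ≠ 0) (h : InF T g N f)
    (hG : GoodP g N D P f) : SmallP K P D f := by
  have h2 : (2 : k) ≠ 0 := by
    have := Pool.Agent.N738.PJ.fac_ne hk (m := 2) (by norm_num) (by omega)
    exact_mod_cast this
  obtain ⟨S, hS, hD, hnb⟩ := hG
  obtain ⟨J, hJ, hU⟩ := selF2 Pool.Agent.N874.JM.parts K h2 hg h.goodR
    (goodS_of hg h.mo fun Q hQ => ⟨(hS Q hQ).1, (hS Q hQ).2.1, (hS Q hQ).2.2.2⟩)
    (h.fam hg fun Q hQ => (hS Q hQ).2.2.2) hnb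
  exact ⟨J, fun Q hQ => hS Q (hJ hQ),
    (Finset.sum_le_sum_of_subset hJ).trans hD, hU⟩

/-- **Almost all curves of the family have a small twist with primes with the property `P`.** -/
theorem almost_allP (K : Type) [Field K] [Algebra k[X] K] [IsFractionRing k[X] K] {g : ℕ}
    (hg : 1 ≤ g) (hk : ((2 * g + 1).factorial : k) ≠ 0) (T : Finset k[X])
    (hT : ∀ P ∈ T, P.Monic ∧ Irreducible P) (P : k[X] → Prop) {c B : ℝ} (hc : 0 < c)
    (hR : ∀ n : ℕ, c * Real.log (n + 1) - B ≤ RR g (Up P n)) :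
    ∃ C e : ℝ, 0 < C ∧ 0 < e ∧ ∀ D : ℕ, 1 ≤ D →
    ∀ᶠ N : ℕ in atTop, ({f : k[X][X] | InF T g N f ∧ ¬ SmallP K P D f}.ncard : ℝ) ≤
      C * (D : ℝ) ^ (-e) * ({f : k[X][X] | InF T g N f}.ncard : ℝ) := by
  obtain ⟨c', hc', hge⟩ := inF_ge hg hk T hT
  obtain ⟨C, e, hC, he, hmc⟩ := mcP Pool.Agent.N874.JM.bad hg hk P hc hR
  obtain ⟨ℛ, hℛ⟩ : ∃ ℛ : Finset k[X], ℛ = (goodR_fin (k := k) g).toFinset := ⟨_, rfl⟩
  refine ⟨(ℛ.card + 1) * C / c', e, by positivity, he, fun D hD => ?_⟩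
  filter_upwards [hge, hmc D hD] with N h1 h2
  obtain ⟨q, hq⟩ : ∃ q : ℝ, q = (Nat.card k : ℝ) ^ (2 * N * dd g) := ⟨_, rfl⟩
  obtain ⟨η, hη⟩ : ∃ η : ℝ, η = (D : ℝ) ^ (-e) := ⟨_, rfl⟩
  rw [← hq] at h1 h2
  rw [← hη] at h2 ⊢
  have hη0 : 0 ≤ η := by
    rw [hη]
    positivity
  have hq0 : 0 ≤ q := by
    rw [hq]
    positivity
  have hsub : {f : k[X][X] | InF T g N f ∧ ¬ SmallP K P D f} ⊆
      ⋃ r ∈ ℛ, pol '' (((BF g N r 1 (fun _ => 0)).filter fun a => ¬ GoodP g N D P (pol a) :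
        Finset (Fin (2 * g) → k[X])) : Set (Fin (2 * g) → k[X])) := by
    rintro f ⟨hf, hns⟩
    rw [Set.mem_iUnion₂]
    refine ⟨rInf g N f, ?_, fun j => f.coeff j, ?_, hf.mo.eq⟩
    · rw [hℛ, Set.Finite.mem_toFinset]
      exact hf.goodR
    · rw [Finset.mem_coe, Finset.mem_filter]
      refine ⟨hf.box, fun hG => hns ?_⟩
      rw [hf.mo.eq] at hG
      exact smallP_of K hg hk hf hG
  have hfin : (⋃ r ∈ ℛ, pol '' (((BF g N r 1 (fun _ => 0)).filter fun a =>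
      ¬ GoodP g N D P (pol a) : Finset (Fin (2 * g) → k[X])) :
        Set (Fin (2 * g) → k[X]))).Finite :=
    Set.Finite.biUnion (Finset.finite_toSet _) fun r _ => (Finset.finite_toSet _).image _
  have h3 : ({f : k[X][X] | InF T g N f ∧ ¬ SmallP K P D f}.ncard : ℝ) ≤
      ∑ r ∈ ℛ, (((BF g N r 1 (fun _ => 0)).filter fun a =>
        ¬ GoodP g N D P (pol a)).card : ℝ) := by
    have h4 := (Set.ncard_le_ncard hsub hfin).trans (Finset.set_ncard_biUnion_le _ _)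
    have h5 : ∑ r ∈ ℛ, (pol '' (((BF g N r 1 (fun _ => 0)).filter fun a =>
        ¬ GoodP g N D P (pol a) : Finset (Fin (2 * g) → k[X])) :
          Set (Fin (2 * g) → k[X]))).ncard ≤
        ∑ r ∈ ℛ, ((BF g N r 1 (fun _ => 0)).filter fun a => ¬ GoodP g N D P (pol a)).card := by
      refine Finset.sum_le_sum fun r _ => ?_
      refine (Set.ncard_image_le (Finset.finite_toSet _)).trans ?_
      rw [Set.ncard_coe_finset]
    exact_mod_cast h4.trans h5
  calc ({f : k[X][X] | InF T g N f ∧ ¬ SmallP K P D f}.ncard : ℝ)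
      ≤ ∑ r ∈ ℛ, (((BF g N r 1 (fun _ => 0)).filter fun a =>
        ¬ GoodP g N D P (pol a)).card : ℝ) := h3
    _ ≤ ∑ r ∈ ℛ, C * η * q := Finset.sum_le_sum fun r _ => h2 r
    _ = ℛ.card * (C * η * q) := by rw [Finset.sum_const, nsmul_eq_mul]
    _ ≤ (ℛ.card + 1) * (C * η * q) := by
        refine mul_le_mul_of_nonneg_right (by linarith) (by positivity)
    _ = (ℛ.card + 1) * C / c' * η * (c' * q) := by field_simp
    _ ≤ (ℛ.card + 1) * C / c' * η * ({f : k[X][X] | InF T g N f}.ncard : ℝ) :=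
        mul_le_mul_of_nonneg_left h1 (by positivity)

end Pool.Agent.Helper28H.SP
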