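import Pool.Agent.Helper28H.SP.Total
import Pool.Agent.Helper28H.FF.Est
import Pool.Agent.N874.PP.Sel

/-!
# A lower bound for the primes of `k[t]` with a prime of degree one over them
-/

set_option autoImplicit false
set_option linter.all false

open Polynomial Module IsDedekindDomain
open scoped Classical

namespace Pool.Agent.Helper28H.SP

open Pool.Agent.N874.PP (Ov exists_below)
open Pool.Agent.N490.PP.Fam (Irr Irr_finite Irr_mul_le)

variable {k : Type} [Field k] [Finite k]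

section ext

variable {O : Type} [CommRing O] [IsDedekindDomain O] [Algebra k[X] O]

/-- `w` is a prime of degree one over `Q`. -/
def One (Q : k[X]) (w : HeightOneSpectrum O) : Prop :=
  Ov Q w ∧ ∀ y : O, ∃ c : k[X], y - algebraMap k[X] O c ∈ w.asIdeal

/-- There is a prime of degree one over `Q`. -/
def HasOne (O : Type) [CommRing O] [IsDedekindDomain O] [Algebra k[X] O] (Q : k[X]) : Prop :=
  ∃ w : HeightOneSpectrum O, One Q w

variable [Algebra k O] [IsScalarTower k k[X] O] [Module.Finite k[X] O]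

theorem D_over {Q : k[X]} (hQ : Irreducible Q) (w : HeightOneSpectrum O) (h : Ov Q w) :
    ∃ f : ℕ, 1 ≤ f ∧ D k w.asIdeal = Q.natDegree * f ∧
      (f = 1 → ∀ y : O, ∃ c : k[X], y - algebraMap k[X] O c ∈ w.asIdeal) := by
  haveI hmax : (Ideal.span {Q} : Ideal k[X]).IsMaximal :=
    PrincipalIdealRing.isMaximal_of_irreducible hQ
  letI : Field (k[X] ⧸ Ideal.span {Q}) := Ideal.Quotient.field _
  haveI := w.isMaximal
  letI : Field (O ⧸ w.asIdeal) := Ideal.Quotient.field _
  haveI := fin_quot (k := k) w.ne_bot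
  obtain ⟨hfin, hcard⟩ := FF.card_quot hQ
  let ψ : (k[X] ⧸ Ideal.span {Q}) →+* (O ⧸ w.asIdeal) :=
    Ideal.Quotient.lift (Ideal.span {Q}) ((Ideal.Quotient.mk w.asIdeal).comp (algebraMap k[X] O))
      (fun a ha => by
        obtain ⟨c, rfl⟩ := Ideal.mem_span_singleton.1 ha
        rw [RingHom.comp_apply, Ideal.Quotient.eq_zero_iff_mem, map_mul]
        exact w.asIdeal.mul_mem_right _ h)
  letI : Algebra (k[X] ⧸ Ideal.span {Q}) (O ⧸ w.asIdeal) := ψ.toAlgebra
  have h1 : Nat.card (O ⧸ w.asIdeal) = Nat.card (k[X] ⧸ Ideal.span {Q}) ^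
      finrank (k[X] ⧸ Ideal.span {Q}) (O ⧸ w.asIdeal) := Module.natCard_eq_pow_finrank
  have h2 := card_eq (k := k) w.ne_bot
  rw [Submodule.cardQuot_apply] at h2
  have h3 : D k w.asIdeal = Q.natDegree * finrank (k[X] ⧸ Ideal.span {Q}) (O ⧸ w.asIdeal) := by
    rw [h2, hcard, Pool.Agent.N874.PP.nm, ← pow_mul] at h1
    exact Nat.pow_right_injective q_gt h1
  have h4 := D_pos (k := k) w.ne_bot w.isPrime.ne_top
  refine ⟨_, ?_, h3, fun hf y => ?_⟩
  · rcases Nat.eq_zero_or_pos (finrank (k[X] ⧸ Ideal.span {Q}) (O ⧸ w.asIdeal)) with h5 | h5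
    · rw [h5] at h3
      omega
    · exact h5
  · rw [hf, pow_one] at h1
    have h5 : Function.Bijective ψ :=
      Function.Injective.bijective_of_nat_card_le ψ.injective h1.le
    obtain ⟨z, hz⟩ := h5.2 (Ideal.Quotient.mk w.asIdeal y)
    obtain ⟨c, rfl⟩ := Ideal.Quotient.mk_surjective z
    refine ⟨c, ?_⟩
    rw [← Ideal.Quotient.eq]
    exact hz.symm

variable {ι : Type} [Fintype ι] (b : Basis ι k[X] O)

include b in
/-- The sum of the degrees of the primes over `Q`. -/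
theorem sum_over {Q : k[X]} (hQ : Q ≠ 0) (V : Finset (HeightOneSpectrum O))
    (h : ∀ w ∈ V, Ov Q w) : ∑ w ∈ V, D k w.asIdeal ≤ Fintype.card ι * Q.natDegree := by
  haveI := inf_O b
  haveI : Module.Free k[X] O := Module.Free.of_basis b
  have hnorm := Algebra.norm_algebraMap_of_basis b Q
  have hne : algebraMap k[X] O Q ≠ 0 := by
    intro h0
    rw [h0, Algebra.norm_zero] at hnorm
    exact pow_ne_zero _ hQ hnorm.symm
  have h1 : D k (Ideal.span {algebraMap k[X] O Q}) = Fintype.card ι * Q.natDegree := by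
    rw [D_span b hne, hnorm, natDegree_pow]
  have h2 : ∏ I ∈ V.image (fun w => w.asIdeal), I ∣ Ideal.span {algebraMap k[X] O Q} := by
    refine Finset.prod_primes_dvd _ (fun I hI => ?_) fun I hI => ?_
    · obtain ⟨w, -, rfl⟩ := Finset.mem_image.1 hI
      exact Ideal.prime_of_isPrime w.ne_bot w.isPrime
    · obtain ⟨w, hw, rfl⟩ := Finset.mem_image.1 hI
      rw [Ideal.dvd_span_singleton]
      exact h w hw
  rw [Finset.prod_image (fun w _ w' _ e => HeightOneSpectrum.ext e)] at h2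
  have h3 := D_prod (k := k) (V.val.map fun w => w.asIdeal) (by
    intro I hI
    obtain ⟨w, -, rfl⟩ := Multiset.mem_map.1 hI
    exact w.ne_bot)
  have h4 : (V.val.map fun w => w.asIdeal).prod = ∏ w ∈ V, w.asIdeal := rfl
  rw [h4, Multiset.map_map] at h3
  have h5 : (Multiset.map (D k ∘ fun w : HeightOneSpectrum O => w.asIdeal) V.val).sum =
      ∑ w ∈ V, D k w.asIdeal := rfl
  rw [h5] at h3
  rw [← h1, ← h3.2]
  exact D_le_of_le (Ideal.dvd_iff_le.1 h2) fun h0 => hne (Ideal.span_singleton_eq_bot.1 h0)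

end ext

/-- The monic irreducible polynomials of degree at most `n`. -/
noncomputable def Un (k : Type) [Field k] [Finite k] (n : ℕ) : Finset k[X] :=
  (Finset.Icc 1 n).biUnion fun d => (Irr_finite (k := k) d).toFinset

theorem mem_Un {n : ℕ} {Q : k[X]} : Q ∈ Un k n ↔ Q.Monic ∧ Irreducible Q ∧ Q.natDegree ≤ n := by
  unfold Un
  rw [Finset.mem_biUnion]
  constructor
  · rintro ⟨d, h1, h2⟩
    obtain ⟨h4, h5, h6⟩ := (Irr_finite (k := k) d).mem_toFinset.1 h2
    exact ⟨h4, h5, h6 ▸ (Finset.mem_Icc.1 h1).2⟩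
  · rintro ⟨h1, h2, h3⟩
    exact ⟨Q.natDegree, Finset.mem_Icc.2 ⟨h2.natDegree_pos, h3⟩,
      (Irr_finite (k := k) _).mem_toFinset.2 ⟨h1, h2, rfl⟩⟩

theorem sum_sq (n : ℕ) : ∑ Q ∈ Un k n, (Q.natDegree : ℝ) / (Nat.card k : ℝ) ^ (2 * Q.natDegree) ≤ 1 := by
  have hq2 : (2 : ℝ) ≤ Nat.card k := by exact_mod_cast q_gt (k := k)
  have e := FF.sum_irr (k := k) n fun d => (d : ℝ) / (Nat.card k : ℝ) ^ (2 * d)
  have e' : ∑ Q ∈ Un k n, (Q.natDegree : ℝ) / (Nat.card k : ℝ) ^ (2 * Q.natDegree) =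
    ∑ d ∈ Finset.Icc 1 n, ((Irr k d).ncard : ℝ) * ((d : ℝ) / (Nat.card k : ℝ) ^ (2 * d)) := e
  rw [e']
  have h5 : ∀ d ∈ Finset.Icc 1 n, ((Irr k d).ncard : ℝ) * ((d : ℝ) / (Nat.card k : ℝ) ^ (2 * d)) ≤
      (1 / (Nat.card k : ℝ)) ^ d := by
    intro d hd
    have hd1 := (Finset.mem_Icc.1 hd).1
    have h6 := Irr_mul_le (k := k) hd1
    have h7 : (d : ℝ) * (Irr k d).ncard ≤ (Nat.card k : ℝ) ^ d := by exact_mod_cast h6
    have h8 : (0 : ℝ) < (Nat.card k : ℝ) ^ d := by positivity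
    rw [one_div, inv_pow, ← mul_div_assoc, div_le_iff₀ (by positivity), two_mul, pow_add,
      ← mul_assoc, inv_mul_cancel₀ h8.ne', one_mul]
    linarith
  refine (Finset.sum_le_sum h5).trans ?_
  have h6 : (1 : ℝ) / Nat.card k ≤ 1 / 2 := div_le_div_of_nonneg_left (by norm_num) (by norm_num) hq2
  refine (geo (by positivity) h6 n).trans ?_
  linarith

section main

variable {O : Type} [CommRing O] [IsDedekindDomain O] [Algebra k[X] O] [Algebra k O]
  [IsScalarTower k k[X] O] [Module.Finite k[X] O] {ι : Type} [Fintype ι] (b : Basis ι k[X] O)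

include b in
theorem one_sum : ∃ A B : ℝ, 0 < A ∧ ∀ x : ℕ,
    (x : ℝ) ≤ A * ∑ Q ∈ (Un k x).filter (HasOne O), (Q.natDegree : ℝ) /
      (Nat.card k : ℝ) ^ Q.natDegree + B := by
  haveI := inf_O b
  obtain ⟨A, hA, C, hW⟩ := total b
  obtain ⟨m, hm⟩ : ∃ m, m = Fintype.card ι := ⟨_, rfl⟩
  rw [← hm] at hW
  have hm0 : 0 < m := by
    rw [hm, Fintype.card_pos_iff]
    by_contra hcon
    rw [not_nonempty_iff] at hcon
    have h1 : (1 : O) = 0 := by
      rw [← val_repr b (1 : O), ← val_repr b (0 : O)]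
      congr 1
      funext i
      exact hcon.elim i
    exact one_ne_zero h1
  have hm0' : (0 : ℝ) < m := by exact_mod_cast hm0
  have hq2 : (2 : ℝ) ≤ Nat.card k := by exact_mod_cast q_gt (k := k)
  have hq0 : (0 : ℝ) < Nat.card k := by linarith
  refine ⟨A * m, A * m + m * (C + 1), by positivity, fun x => ?_⟩
  obtain ⟨S1, hS1⟩ : ∃ S1 : ℝ, S1 = ∑ Q ∈ (Un k x).filter (HasOne O), (Q.natDegree : ℝ) /
      (Nat.card k : ℝ) ^ Q.natDegree := ⟨_, rfl⟩
  rw [← hS1]
  have hS0 : 0 ≤ S1 := by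
    rw [hS1]
    exact Finset.sum_nonneg fun Q _ => by positivity
  by_cases hx : x < m * C
  · have h1 : (x : ℝ) ≤ m * C := by exact_mod_cast hx.le
    have h2 : 0 ≤ A * m * S1 := by positivity
    have h3 : 0 ≤ A * m := by positivity
    linarith
  push Not at hx
  obtain ⟨n, hn⟩ : ∃ n, n = x / m - C := ⟨_, rfl⟩
  have hC : C ≤ x / m := by
    rw [Nat.le_div_iff_mul_le hm0, mul_comm]
    exact hx
  have hnC : n + C = x / m := by omega
  have hLx : m * (n + C) ≤ x := by
    rw [hnC]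
    exact Nat.mul_div_le _ _
  have hxL : x ≤ m * (n + C) + m := by
    rw [hnC]
    have := Nat.lt_mul_div_succ x hm0
    rw [mul_add, mul_one] at this
    exact this.le
  obtain ⟨W, hW1, hW2⟩ := hW n
  haveI : Algebra.IsIntegral k[X] O := Algebra.IsIntegral.of_finite _ _
  choose Qf hQf using fun w : HeightOneSpectrum O => exists_below (k := k) w
  have hDge : ∀ w ∈ W, (Qf w).natDegree ≤ D k w.asIdeal := by
    intro w _
    obtain ⟨f, hf1, hf2, -⟩ := D_over (hQf w).2.1 w (hQf w).2.2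
    rw [hf2]
    exact Nat.le_mul_of_pos_right _ hf1
  have hmaps : ∀ w ∈ W, Qf w ∈ Un k x := by
    intro w hw
    exact mem_Un.2 ⟨(hQf w).1, (hQf w).2.1, (hDge w hw).trans ((hW1 w hw).trans hLx)⟩
  have hsum : ∑ w ∈ W, (D k w.asIdeal : ℝ) / (Nat.card k : ℝ) ^ D k w.asIdeal ≤
      m * S1 + m := by
    rw [← Finset.sum_fiberwise_of_maps_to hmaps]
    have h1 : ∀ Q ∈ Un k x, ∑ w ∈ W.filter (fun w => Qf w = Q),
        (D k w.asIdeal : ℝ) / (Nat.card k : ℝ) ^ D k w.asIdeal ≤
        m * ((if HasOne O Q then (Q.natDegree : ℝ) / (Nat.card k : ℝ) ^ Q.natDegree else 0) +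
          (Q.natDegree : ℝ) / (Nat.card k : ℝ) ^ (2 * Q.natDegree)) := by
      intro Q hQ
      obtain ⟨hQm, hQi, -⟩ := mem_Un.1 hQ
      obtain ⟨β, hβ⟩ : ∃ β : ℝ, β = (if HasOne O Q then 1 / (Nat.card k : ℝ) ^ Q.natDegree else 0) +
          1 / (Nat.card k : ℝ) ^ (2 * Q.natDegree) := ⟨_, rfl⟩
      have hβ0 : 0 ≤ β := by
        rw [hβ]
        split_ifs <;> positivity
      have h2 : ∀ w ∈ W.filter (fun w => Qf w = Q),
          (D k w.asIdeal : ℝ) / (Nat.card k : ℝ) ^ D k w.asIdeal ≤ (D k w.asIdeal : ℝ) * β := by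
        intro w hw
        obtain ⟨hwW, hwQ⟩ := Finset.mem_filter.1 hw
        have hov : Ov Q w := by
          rw [← hwQ]
          exact (hQf w).2.2
        obtain ⟨f, hf1, hf2, hf3⟩ := D_over hQi w hov
        rw [div_eq_mul_one_div]
        refine mul_le_mul_of_nonneg_left ?_ (Nat.cast_nonneg _)
        rcases Nat.lt_or_ge f 2 with h3 | h3
        · have hf : f = 1 := by omega
          have hone : HasOne O Q := ⟨w, hov, hf3 hf⟩
          rw [hβ, if_pos hone, hf2, hf, mul_one]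
          have : (0 : ℝ) ≤ 1 / (Nat.card k : ℝ) ^ (2 * Q.natDegree) := by positivity
          linarith
        · rw [hβ, hf2]
          have h4 : (1 : ℝ) / (Nat.card k : ℝ) ^ (Q.natDegree * f) ≤
              1 / (Nat.card k : ℝ) ^ (2 * Q.natDegree) := by
            refine div_le_div_of_nonneg_left (by norm_num) (by positivity) ?_
            refine pow_le_pow_right₀ (by linarith) ?_
            rw [mul_comm]
            exact Nat.mul_le_mul_left _ h3
          have h5 : (0 : ℝ) ≤ if HasOne O Q then 1 / (Nat.card k : ℝ) ^ Q.natDegree else 0 := by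
            split_ifs <;> positivity
          linarith
      refine (Finset.sum_le_sum h2).trans ?_
      rw [← Finset.sum_mul]
      have h3 : (∑ w ∈ W.filter (fun w => Qf w = Q), (D k w.asIdeal : ℝ)) ≤ m * Q.natDegree := by
        have := sum_over b hQi.ne_zero (W.filter (fun w => Qf w = Q)) (fun w hw => by
          rw [← (Finset.mem_filter.1 hw).2]
          exact (hQf w).2.2)
        rw [← hm] at this
        exact_mod_cast this
      refine (mul_le_mul_of_nonneg_right h3 hβ0).trans (le_of_eq ?_)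
      rw [hβ]
      split_ifs <;> ring
    refine (Finset.sum_le_sum h1).trans ?_
    rw [← Finset.mul_sum, Finset.sum_add_distrib, ← Finset.sum_filter, ← hS1, mul_add]
    have := sum_sq (k := k) x
    nlinarith
  have h1 : (x : ℝ) ≤ ((m * (n + C) : ℕ) : ℝ) + m := by exact_mod_cast hxL
  have h2 := hW2.trans (mul_le_mul_of_nonneg_left hsum hA.le)
  have h3 : (0 : ℝ) ≤ m * C := by positivity
  nlinarith

end main

end Pool.Agent.Helper28H.SP
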