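import Pool.Agent.Helper28H.SP.Pr

/-!
# The sum of the probabilities over the primes with a prime of degree one over them
-/

set_option autoImplicit false
set_option linter.all false

open Polynomial Module IsDedekindDomain
open scoped Classical

namespace Pool.Agent.Helper28H.SP

open Pool.Agent.Helper28H.FF
open Pool.Agent.N874.PP (nm)
open Pool.Agent.N615.JM (nm_pos)

/-- Summation by parts. -/
theorem abel (u : ℕ → ℝ) (n : ℕ) :
    ∑ d ∈ Finset.Icc 1 n, u d / d = (∑ d ∈ Finset.Icc 1 n, u d) / (n + 1) +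
      ∑ d ∈ Finset.Icc 1 n, (∑ e ∈ Finset.Icc 1 d, u e) / (d * (d + 1)) := by
  induction n with
  | zero => simp
  | succ n ih =>
    rw [Finset.sum_Icc_succ_top (by omega), Finset.sum_Icc_succ_top (by omega),
      Finset.sum_Icc_succ_top (by omega), ih, Finset.sum_Icc_succ_top (by omega)]
    have h1 : ((n : ℝ) + 1) ≠ 0 := by positivity
    have h2 : ((n : ℝ) + 1 + 1) ≠ 0 := by positivity
    push_cast
    field_simp
    ring

theorem abel_ge {u : ℕ → ℝ} {a b : ℝ} (ha : 0 ≤ a) (hb : 0 ≤ b) (hu : ∀ d, 0 ≤ u d)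
    (h : ∀ n : ℕ, a * n - b ≤ ∑ d ∈ Finset.Icc 1 n, u d) (n : ℕ) :
    a * Real.log (n + 1) - (a + b) ≤ ∑ d ∈ Finset.Icc 1 n, u d / d := by
  rw [abel]
  have h1 : 0 ≤ (∑ d ∈ Finset.Icc 1 n, u d) / ((n : ℝ) + 1) := by
    have : 0 ≤ ∑ d ∈ Finset.Icc 1 n, u d := Finset.sum_nonneg fun d _ => hu d
    positivity
  have h2 : ∀ d ∈ Finset.Icc 1 n, a * (1 / ((d : ℝ) + 1)) - b * (1 / d - 1 / (d + 1)) ≤
      (∑ e ∈ Finset.Icc 1 d, u e) / (d * (d + 1)) := by
    intro d hd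
    have hd1 : (1 : ℝ) ≤ d := by exact_mod_cast (Finset.mem_Icc.1 hd).1
    have h3 := h d
    have e : a * (1 / ((d : ℝ) + 1)) - b * (1 / d - 1 / (d + 1)) = (a * d - b) / (d * (d + 1)) := by
      have h4 : ((d : ℝ) + 1) ≠ 0 := by positivity
      have h5 : (d : ℝ) ≠ 0 := by positivity
      field_simp
      ring
    rw [e]
    exact div_le_div_of_nonneg_right h3 (by positivity)
  have h3 := Finset.sum_le_sum h2
  rw [Finset.sum_sub_distrib, ← Finset.mul_sum, ← Finset.mul_sum] at h3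
  have h4 : ∀ n : ℕ, ∑ d ∈ Finset.Icc 1 n, ((1 : ℝ) / d - 1 / (d + 1)) = 1 - 1 / (n + 1) := by
    intro n
    induction n with
    | zero => simp
    | succ n ih =>
      rw [Finset.sum_Icc_succ_top (by omega), ih]
      push_cast
      ring
  have h5 : ∀ n : ℕ, Real.log (n + 1) - 1 ≤ ∑ d ∈ Finset.Icc 1 n, (1 : ℝ) / ((d : ℝ) + 1) := by
    intro n
    have h6 : ∑ d ∈ Finset.Icc 1 n, ((1 : ℝ) / ((d : ℝ) + 1)) =
        (∑ d ∈ Finset.Icc 1 n, (1 : ℝ) / d) - (1 - 1 / (n + 1)) := by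
      rw [← h4 n, Finset.sum_sub_distrib]
      ring
    have h9 := log_add_one_le_harmonic n
    rw [harmonic_eq_sum_Icc] at h9
    push_cast at h9
    simp only [← one_div] at h9
    rw [h6]
    have : (0 : ℝ) ≤ 1 / ((n : ℝ) + 1) := by positivity
    linarith
  rw [h4] at h3
  have h6 := mul_le_mul_of_nonneg_left (h5 n) ha
  have h7 : b * (1 - 1 / ((n : ℝ) + 1)) ≤ b := by
    have : (0 : ℝ) ≤ 1 / ((n : ℝ) + 1) := by positivity
    nlinarith
  linarith

variable {k : Type} [Field k] [Finite k]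

/-- The monic irreducible polynomials of degree at most `n` with the property `P`. -/
noncomputable def Up (P : k[X] → Prop) (n : ℕ) : Finset k[X] := (Un k n).filter P

theorem mem_Up {P : k[X] → Prop} {n : ℕ} {Q : k[X]} :
    Q ∈ Up P n ↔ Q.Monic ∧ Irreducible Q ∧ Q.natDegree ≤ n ∧ P Q := by
  unfold Up
  rw [Finset.mem_filter, mem_Un, and_assoc, and_assoc]

theorem deg_le' (P : k[X] → Prop) (n : ℕ) : ∑ Q ∈ Up P n, (Q.natDegree : ℝ) / nm Q ≤ n := by
  refine le_trans ?_ (deg_le (k := k) ∅ n)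
  have e : PT (k := k) ∅ n = Un k n := by
    unfold PT Un
    rw [Finset.sdiff_empty]
  rw [e]
  exact Finset.sum_le_sum_of_subset_of_nonneg (Finset.filter_subset _ _) fun Q _ _ => by positivity

theorem Up_sum (P : k[X] → Prop) (n : ℕ) (F : k[X] → ℝ) : ∑ Q ∈ Up P n, F Q =
    ∑ d ∈ Finset.Icc 1 n, ∑ Q ∈ (Up P d).filter (fun Q => Q.natDegree = d), F Q := by
  have hmaps : ∀ Q ∈ Up P n, Q.natDegree ∈ Finset.Icc 1 n := by
    intro Q hQ
    obtain ⟨h1, h2, h3, -⟩ := mem_Up.1 hQ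
    exact Finset.mem_Icc.2 ⟨h2.natDegree_pos, h3⟩
  rw [← Finset.sum_fiberwise_of_maps_to hmaps]
  refine Finset.sum_congr rfl fun d hd => ?_
  congr 1
  ext Q
  rw [Finset.mem_filter, Finset.mem_filter, mem_Up, mem_Up]
  constructor
  · rintro ⟨⟨h1, h2, h3, h4⟩, h5⟩
    exact ⟨⟨h1, h2, h5.le, h4⟩, h5⟩
  · rintro ⟨⟨h1, h2, h3, h4⟩, h5⟩
    exact ⟨⟨h1, h2, h5.le.trans (Finset.mem_Icc.1 hd).2, h4⟩, h5⟩

/-- From the sum of the degrees to the sum of the probabilities. -/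
theorem RR_of {g : ℕ} (hg : 1 ≤ g) (hk : ((2 * g + 1).factorial : k) ≠ 0) (P : k[X] → Prop)
    {a b : ℝ} (ha : 0 ≤ a) (hb : 0 ≤ b)
    (h : ∀ n : ℕ, a * n - b ≤ ∑ Q ∈ Up P n, (Q.natDegree : ℝ) / nm Q) (n : ℕ) :
    1 / (4 * g) * (a * Real.log (n + 1) - (a + b)) ≤ RR g (Up P n) := by
  have hg' : (1 : ℝ) ≤ g := by exact_mod_cast hg
  have h1 : ∑ Q ∈ Up P n, (1 : ℝ) / (4 * g * nm Q) ≤ RR g (Up P n) := by
    refine Finset.sum_le_sum fun Q hQ => ?_
    obtain ⟨h4, h5, -⟩ := mem_Up.1 hQ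
    exact rho_ge hg hk h4 h5
  refine le_trans ?_ h1
  have h2 : ∑ Q ∈ Up P n, (1 : ℝ) / (4 * g * nm Q) =
      1 / (4 * g) * ∑ Q ∈ Up P n, (1 : ℝ) / nm Q := by
    rw [Finset.mul_sum]
    refine Finset.sum_congr rfl fun Q _ => ?_
    rw [one_div_mul_one_div]
  rw [h2]
  refine mul_le_mul_of_nonneg_left ?_ (by positivity)
  obtain ⟨u, hu⟩ : ∃ u : ℕ → ℝ, u = fun d => ∑ Q ∈ (Up P d).filter (fun Q => Q.natDegree = d),
    (Q.natDegree : ℝ) / nm Q := ⟨_, rfl⟩
  have h3 := abel_ge (u := u) ha hb (fun d => by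
    rw [hu]
    exact Finset.sum_nonneg fun Q _ => by positivity) (fun n => by
    have := h n
    rw [Up_sum P n] at this
    rw [hu]
    exact this) n
  refine h3.trans (le_of_eq ?_)
  rw [Up_sum P n fun Q => (1 : ℝ) / nm Q]
  refine Finset.sum_congr rfl fun d hd => ?_
  rw [hu]
  simp only
  rw [Finset.sum_div]
  refine Finset.sum_congr rfl fun Q hQ => ?_
  have e := (Finset.mem_filter.1 hQ).2
  have hd0 : (d : ℝ) ≠ 0 := by
    have := (Finset.mem_Icc.1 hd).1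
    positivity
  have p : (nm Q : ℝ) ≠ 0 := by
    have : (0 : ℝ) < nm Q := by exact_mod_cast nm_pos Q
    exact this.ne'
  rw [e]
  field_simp

section main

variable {O : Type} [CommRing O] [IsDedekindDomain O] [Algebra k[X] O] [Module.Finite k[X] O]
  [Module.Free k[X] O]

/-- The primes outside `T` with a prime of degree one over them. -/
theorem RR_one {g : ℕ} (hg : 1 ≤ g) (hk : ((2 * g + 1).factorial : k) ≠ 0) (T : Finset k[X]) :
    ∃ c B : ℝ, 0 < c ∧ ∀ n : ℕ,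
      c * Real.log (n + 1) - B ≤ RR g (Up (fun Q => Q ∉ T ∧ HasOne O Q) n) := by
  letI : Algebra k O := ((algebraMap k[X] O).comp C).toAlgebra
  haveI : IsScalarTower k k[X] O := IsScalarTower.of_algebraMap_eq fun _ => rfl
  obtain ⟨A, B, hA, h⟩ := one_sum (Module.Free.chooseBasis k[X] O)
  have hq1 : 1 < Nat.card k := q_gt
  have hB' : B ≤ |B| := le_abs_self B
  have h1 : ∀ n : ℕ, 1 / A * n - (|B| / A + T.card) ≤
      ∑ Q ∈ Up (fun Q => Q ∉ T ∧ HasOne O Q) n, (Q.natDegree : ℝ) / nm Q := by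
    intro n
    have h2 := h n
    have h3 : ∑ Q ∈ (Un k n).filter (HasOne O), (Q.natDegree : ℝ) / (Nat.card k : ℝ) ^ Q.natDegree ≤
        ∑ Q ∈ Up (fun Q => Q ∉ T ∧ HasOne O Q) n, (Q.natDegree : ℝ) / nm Q + T.card := by
      have h4 : (Un k n).filter (HasOne O) ⊆ Up (fun Q => Q ∉ T ∧ HasOne O Q) n ∪ T := by
        intro Q hQ
        rw [Finset.mem_filter] at hQ
        rw [Finset.mem_union]
        by_cases hT : Q ∈ T
        · exact Or.inr hT
        · refine Or.inl ?_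
          obtain ⟨h5, h6, h7⟩ := mem_Un.1 hQ.1
          exact mem_Up.2 ⟨h5, h6, h7, hT, hQ.2⟩
      have h5 : ∀ Q : k[X], (Q.natDegree : ℝ) / (Nat.card k : ℝ) ^ Q.natDegree =
          (Q.natDegree : ℝ) / nm Q := by
        intro Q
        unfold nm
        push_cast
        rfl
      simp only [h5]
      refine (Finset.sum_le_sum_of_subset_of_nonneg h4 fun Q _ _ => by positivity).trans ?_
      have h6 : ∑ Q ∈ T, (Q.natDegree : ℝ) / nm Q ≤ T.card := by
        have h7 : ∀ Q ∈ T, (Q.natDegree : ℝ) / nm Q ≤ 1 := by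
          intro Q _
          have p : (0 : ℝ) < nm Q := by exact_mod_cast nm_pos Q
          rw [div_le_one p]
          have : Q.natDegree ≤ Nat.card k ^ Q.natDegree := (Nat.lt_pow_self hq1).le
          unfold nm
          exact_mod_cast this
        refine (Finset.sum_le_sum h7).trans ?_
        rw [Finset.sum_const, nsmul_eq_mul, mul_one]
      have h8 := Finset.sum_union_inter (s₁ := Up (fun Q => Q ∉ T ∧ HasOne O Q) n) (s₂ := T)
        (f := fun Q : k[X] => (Q.natDegree : ℝ) / nm Q)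
      have h9 : 0 ≤ ∑ Q ∈ Up (fun Q => Q ∉ T ∧ HasOne O Q) n ∩ T, (Q.natDegree : ℝ) / nm Q :=
        Finset.sum_nonneg fun Q _ => by positivity
      linarith
    have h4 : (n : ℝ) ≤ A * (∑ Q ∈ Up (fun Q => Q ∉ T ∧ HasOne O Q) n,
        (Q.natDegree : ℝ) / nm Q + T.card) + |B| := by
      have := mul_le_mul_of_nonneg_left h3 hA.le
      linarith
    have h5 : 1 / A * (n : ℝ) ≤ 1 / A * (A * (∑ Q ∈ Up (fun Q => Q ∉ T ∧ HasOne O Q) n,
        (Q.natDegree : ℝ) / nm Q + T.card) + |B|) := mul_le_mul_of_nonneg_left h4 (by positivity)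
    have h6 : 1 / A * (A * (∑ Q ∈ Up (fun Q => Q ∉ T ∧ HasOne O Q) n,
        (Q.natDegree : ℝ) / nm Q + T.card) + |B|) = ∑ Q ∈ Up (fun Q => Q ∉ T ∧ HasOne O Q) n,
        (Q.natDegree : ℝ) / nm Q + T.card + |B| / A := by
      field_simp
    rw [h6] at h5
    linarith
  have h2 := RR_of hg hk (fun Q => Q ∉ T ∧ HasOne O Q) (a := 1 / A) (b := |B| / A + T.card)
    (by positivity) (by positivity) h1
  have hg' : (1 : ℝ) ≤ g := by exact_mod_cast hg
  refine ⟨1 / (4 * g) * (1 / A), 1 / (4 * g) * (1 / A + (|B| / A + T.card)), by positivity,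
    fun n => ?_⟩
  refine le_trans (le_of_eq ?_) (h2 n)
  ring

end main

end Pool.Agent.Helper28H.SP
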