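import Pool.Agent.Helper28H.SP.Lat

/-!
# A lower bound for the primes of a finite extension of `k[t]`
-/

set_option autoImplicit false
set_option linter.all false

open Polynomial Module IsDedekindDomain
open scoped Classical

namespace Pool.Agent.Helper28H.SP

variable {k : Type} [Field k] [Finite k]

theorem geo {x : ℝ} (h0 : 0 ≤ x) (h1 : x ≤ 1 / 2) (L : ℕ) :
    ∑ j ∈ Finset.Icc 1 L, x ^ j ≤ 2 * x := by
  have h2 : ∀ L : ℕ, ∑ j ∈ Finset.Icc 1 L, x ^ j ≤ 2 * x - 2 * x * x ^ L := by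
    intro L
    induction L with
    | zero => simp
    | succ L ih =>
      rw [Finset.sum_Icc_succ_top (by omega)]
      have h3 : 0 ≤ x ^ L := pow_nonneg h0 L
      have h4 : x ^ (L + 1) = x ^ L * x := pow_succ x L
      have h5 : 0 ≤ x * x ^ L := mul_nonneg h0 h3
      nlinarith
  refine (h2 L).trans ?_
  have : 0 ≤ 2 * x * x ^ L := by positivity
  linarith

section ext

variable {O : Type} [CommRing O] [IsDedekindDomain O] [Algebra k[X] O] [Algebra k O]
  [IsScalarTower k k[X] O] [Module.Finite k[X] O] {ι : Type} [Fintype ι] (b : Basis ι k[X] O)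

include b in
omit [Finite k] [IsScalarTower k k[X] O] [Module.Finite k[X] O] [Algebra k O] in
theorem inf_O : Infinite O := by
  haveI : Nonempty ι := by
    by_contra hcon
    rw [not_nonempty_iff] at hcon
    have h1 : (1 : O) = 0 := by
      rw [← val_repr b (1 : O), ← val_repr b (0 : O)]
      congr 1
      funext i
      exact hcon.elim i
    exact one_ne_zero h1
  haveI : Infinite (ι → k[X]) := Pi.infinite_of_exists_right (Classical.arbitrary ι)
  exact Infinite.of_injective _ (val_inj b)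

include b in
theorem total : ∃ A : ℝ, 0 < A ∧ ∃ C : ℕ, ∀ n : ℕ, ∃ W : Finset (HeightOneSpectrum O),
    (∀ w ∈ W, D k w.asIdeal ≤ Fintype.card ι * (n + C)) ∧
    ((Fintype.card ι * (n + C) : ℕ) : ℝ) ≤
      A * ∑ w ∈ W, (D k w.asIdeal : ℝ) / (Nat.card k : ℝ) ^ D k w.asIdeal := by
  haveI := inf_O b
  obtain ⟨C, hC⟩ := fam_count b
  have hq := q_gt (k := k)
  have hq2 : (2 : ℝ) ≤ Nat.card k := by exact_mod_cast hq
  have hq0 : (0 : ℝ) < Nat.card k := by linarith
  obtain ⟨m, hm⟩ : ∃ m, m = Fintype.card ι := ⟨_, rfl⟩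
  refine ⟨2 * (Nat.card k : ℝ) ^ (m * C + m), by positivity, C, fun n => ?_⟩
  obtain ⟨h1, h2⟩ := hC n
  rw [← hm] at h1 h2 ⊢
  obtain ⟨L, hL⟩ : ∃ L, L = m * (n + C) := ⟨_, rfl⟩
  rw [← hL] at h1 h2 ⊢
  let a : (ι → k[X]) → O := fun v => algebraMap k[X] O (X ^ (n + C)) + val b v
  have hfin : ∀ v ∈ bx k ι n, {w : HeightOneSpectrum O | a v ∈ w.asIdeal}.Finite := by
    intro v hv
    haveI := hfq (k := k)
    haveI := Ring.HasFiniteQuotients.of_module_finite k[X] O
    have h3 := Ring.HasFiniteQuotients.finite_setOfPred_mem (a v) (h1 v hv).1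
    exact h3.of_injOn (f := fun w : HeightOneSpectrum O => w.asIdeal) (fun w hw => hw)
      (fun w _ w' _ h => HeightOneSpectrum.ext h)
  let Wv : (ι → k[X]) → Finset (HeightOneSpectrum O) := fun v =>
    if hv : v ∈ bx k ι n then (hfin v hv).toFinset else ∅
  have hWv : ∀ v ∈ bx k ι n, ∀ w, w ∈ Wv v ↔ a v ∈ w.asIdeal := by
    intro v hv w
    have e : Wv v = (hfin v hv).toFinset := dif_pos hv
    rw [e, Set.Finite.mem_toFinset]
    exact Iff.rfl
  obtain ⟨W, hW⟩ : ∃ W, W = (bx k ι n).biUnion Wv := ⟨_, rfl⟩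
  have hspan : ∀ (I : Ideal O) (v : ι → k[X]), Ideal.span {a v} ≤ I ↔ a v ∈ I := by
    intro I v
    rw [Ideal.span_le, Set.singleton_subset_iff]
    exact Iff.rfl
  have hdec : ∀ v ∈ bx k ι n, L ≤ ∑ w ∈ W, D k w.asIdeal *
      ((Finset.Icc 1 L).filter fun j => a v ∈ w.asIdeal ^ j).card := by
    intro v hv
    obtain ⟨h3, h4⟩ := h1 v hv
    have h5 := D_fac (k := k) (I := Ideal.span {a v}) (L := L)
      (fun h => h3 (Ideal.span_singleton_eq_bot.1 h)) h4.le W (fun w hw => ?_)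
    · rw [h4] at h5
      refine h5.trans (le_of_eq ?_)
      refine Finset.sum_congr rfl fun w _ => ?_
      congr 2
      ext j
      simp only [Finset.mem_filter, hspan]
    · rw [hW, Finset.mem_biUnion]
      exact ⟨v, hv, (hWv v hv w).2 ((hspan _ _).1 hw)⟩
  have hcw : ∀ (w : HeightOneSpectrum O) (j : ℕ),
      (((bx k ι n).filter fun v => a v ∈ w.asIdeal ^ j).card : ℝ) ≤
        (Nat.card k : ℝ) ^ (L + m) * ((1 / (Nat.card k : ℝ) ^ D k w.asIdeal) ^ j) := by
    intro w j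
    have h3 := h2 (w.asIdeal ^ j) (by
      have := w.ne_bot
      rw [← Ideal.zero_eq_bot] at this ⊢
      exact pow_ne_zero j this)
    rw [D_pow w.ne_bot] at h3
    have h4 : (((bx k ι n).filter fun v => a v ∈ w.asIdeal ^ j).card : ℝ) *
        (Nat.card k : ℝ) ^ (j * D k w.asIdeal) ≤ (Nat.card k : ℝ) ^ (L + m) := by
      exact_mod_cast h3
    rw [one_div, inv_pow, ← pow_mul, mul_comm (D k w.asIdeal) j, ← div_eq_mul_inv,
      le_div_iff₀ (by positivity)]
    exact h4
  refine ⟨W, fun w hw => ?_, ?_⟩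
  · rw [hW, Finset.mem_biUnion] at hw
    obtain ⟨v, hv, hw⟩ := hw
    rw [hWv v hv] at hw
    obtain ⟨h3, h4⟩ := h1 v hv
    rw [← h4]
    exact D_le_of_le ((hspan _ _).2 hw) fun h => h3 (Ideal.span_singleton_eq_bot.1 h)
  · -- the double counting
    have h3 : ((bx k ι n).card : ℝ) * L ≤ ∑ w ∈ W, (D k w.asIdeal : ℝ) *
        ∑ j ∈ Finset.Icc 1 L, (((bx k ι n).filter fun v => a v ∈ w.asIdeal ^ j).card : ℝ) := by
      have h4 : (bx k ι n).card * L ≤ ∑ v ∈ bx k ι n, ∑ w ∈ W, D k w.asIdeal *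
          ((Finset.Icc 1 L).filter fun j => a v ∈ w.asIdeal ^ j).card := by
        rw [← smul_eq_mul, ← Finset.sum_const]
        exact Finset.sum_le_sum hdec
      rw [Finset.sum_comm] at h4
      have h5 : ∀ w ∈ W, ∑ v ∈ bx k ι n, D k w.asIdeal *
          ((Finset.Icc 1 L).filter fun j => a v ∈ w.asIdeal ^ j).card =
          D k w.asIdeal * ∑ j ∈ Finset.Icc 1 L,
            ((bx k ι n).filter fun v => a v ∈ w.asIdeal ^ j).card := by
        intro w _
        rw [← Finset.mul_sum]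
        congr 1
        simp only [Finset.card_filter]
        rw [Finset.sum_comm]
      rw [Finset.sum_congr rfl h5] at h4
      exact_mod_cast h4
    have h4 : ∀ w ∈ W, (D k w.asIdeal : ℝ) * ∑ j ∈ Finset.Icc 1 L,
        (((bx k ι n).filter fun v => a v ∈ w.asIdeal ^ j).card : ℝ) ≤
        (Nat.card k : ℝ) ^ (L + m) * (2 * ((D k w.asIdeal : ℝ) / (Nat.card k : ℝ) ^ D k w.asIdeal)) := by
      intro w _
      have hD1 := D_pos (k := k) w.ne_bot w.isPrime.ne_top
      have hx0 : (0 : ℝ) ≤ 1 / (Nat.card k : ℝ) ^ D k w.asIdeal := by positivity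
      have hx1 : (1 : ℝ) / (Nat.card k : ℝ) ^ D k w.asIdeal ≤ 1 / 2 := by
        refine div_le_div_of_nonneg_left (by norm_num) (by norm_num) ?_
        calc (2 : ℝ) ≤ (Nat.card k : ℝ) ^ 1 := by rw [pow_one]; exact hq2
          _ ≤ _ := pow_le_pow_right₀ (by linarith) hD1
      calc (D k w.asIdeal : ℝ) * ∑ j ∈ Finset.Icc 1 L,
            (((bx k ι n).filter fun v => a v ∈ w.asIdeal ^ j).card : ℝ)
          ≤ (D k w.asIdeal : ℝ) * ∑ j ∈ Finset.Icc 1 L,
            ((Nat.card k : ℝ) ^ (L + m) * ((1 / (Nat.card k : ℝ) ^ D k w.asIdeal) ^ j)) :=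
            mul_le_mul_of_nonneg_left (Finset.sum_le_sum fun j _ => hcw w j) (Nat.cast_nonneg _)
        _ = (D k w.asIdeal : ℝ) * ((Nat.card k : ℝ) ^ (L + m) *
            ∑ j ∈ Finset.Icc 1 L, (1 / (Nat.card k : ℝ) ^ D k w.asIdeal) ^ j) := by
            rw [← Finset.mul_sum (Finset.Icc 1 L) _ ((Nat.card k : ℝ) ^ (L + m))]
        _ ≤ (D k w.asIdeal : ℝ) * ((Nat.card k : ℝ) ^ (L + m) *
            (2 * (1 / (Nat.card k : ℝ) ^ D k w.asIdeal))) := by
            have := geo hx0 hx1 L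
            gcongr
        _ = _ := by ring
    have h5 := h3.trans (Finset.sum_le_sum h4)
    rw [← Finset.mul_sum, ← Finset.mul_sum, card_bx, ← hm] at h5
    push_cast at h5
    have h6 : (Nat.card k : ℝ) ^ (L + m) = (Nat.card k : ℝ) ^ (m * n) *
        (Nat.card k : ℝ) ^ (m * C + m) := by
      rw [← pow_add, hL]
      congr 1
      ring
    rw [h6, mul_assoc] at h5
    have h7 := le_of_mul_le_mul_left h5 (by positivity)
    refine h7.trans (le_of_eq ?_)
    ring

end ext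

end Pool.Agent.Helper28H.SP
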